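import Pool.Agent.L7h58.BP.Stm
import Pool.Agent.H426R3.CP.BT

set_option autoImplicit false

namespace Pool.Agent.L7h30.BP

open Finset Pool.Agent.L7h58.BP

/-- the counting set as a finset -/
lemma cnt_eq (x : ℕ) (P : ℕ → Prop) [DecidablePred P] :
    cnt x P = ((range (x + 1)).filter (fun q => q.Prime ∧ P q)).card := by
  unfold cnt
  apply Nat.subtype_card
  intro q
  simp only [mem_filter, mem_range]
  constructor
  · rintro ⟨h1, h2, h3⟩
    exact ⟨h2, by omega, h3⟩
  · rintro ⟨h1, h2, h3⟩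
    exact ⟨by omega, h1, h3⟩

lemma cnt_mono {x : ℕ} {P Q : ℕ → Prop} (h : ∀ q, q.Prime → q ≤ x → P q → Q q) : cnt x P ≤ cnt x Q := by
  classical
  rw [cnt_eq, cnt_eq]
  apply card_le_card
  intro q hq
  simp only [mem_filter, mem_range] at hq ⊢
  exact ⟨hq.1, hq.2.1, h q hq.2.1 (by omega) hq.2.2⟩

theorem s_BT : S_BT := by
  classical
  obtain ⟨C, hC1, hC⟩ := Pool.Agent.H426R3.CP.exists_BTC
  refine ⟨3 / 2 * C, by linarith, ?_⟩
  intro d x hd hx
  have hd0 : 0 < d := hd
  have hq2 : 2 ≤ x / d := (Nat.le_div_iff_mul_le hd0).2 hx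
  have h := hC 1 d (x / d + 1) hd (by omega)
  have hdR : (0 : ℝ) < d := by exact_mod_cast hd0
  have hcard : (cnt x (fun q => d ∣ q - 1) : ℝ) ≤
      (((range (x / d + 1)).filter (fun t => (1 + t * d).Prime)).card : ℝ) := by
    rw [cnt_eq]
    refine Nat.cast_le.mpr (Finset.card_le_card_of_injOn (fun q => (q - 1) / d) ?_ ?_)
    · intro q hq
      simp only [coe_filter, mem_range, Set.mem_setOf_eq] at hq ⊢
      obtain ⟨h1, h2, h3⟩ := hq
      refine ⟨?_, ?_⟩
      · exact Nat.lt_succ_of_le (Nat.div_le_div_right (by omega))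
      · rw [Nat.div_mul_cancel h3]
        have := h2.two_le
        rw [show 1 + (q - 1) = q by omega]
        exact h2
    · intro q hq q' hq' he
      simp only [coe_filter, mem_range, Set.mem_setOf_eq] at hq hq' he
      have e1 := Nat.div_mul_cancel hq.2.2
      have e2 := Nat.div_mul_cancel hq'.2.2
      rw [he] at e1
      have := hq.2.1.two_le
      have := hq'.2.1.two_le
      omega
  refine hcard.trans (h.trans ?_)
  have hphi : (0 : ℝ) < (Nat.totient d : ℝ) := by exact_mod_cast Nat.totient_pos.2 hd0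
  have hxd : (2 : ℝ) ≤ (x : ℝ) / d := by
    rw [le_div_iff₀ hdR]
    exact_mod_cast hx
  have hN1 : (((x / d + 1 : ℕ) : ℝ)) ≤ 3 / 2 * ((x : ℝ) / d) := by
    have : ((x / d : ℕ) : ℝ) ≤ (x : ℝ) / d := Nat.cast_div_le
    push_cast
    linarith
  have hN2 : (x : ℝ) / d ≤ ((x / d + 1 : ℕ) : ℝ) := by
    have := Nat.lt_floor_add_one ((x : ℝ) / d)
    rw [Nat.floor_div_natCast, Nat.floor_natCast] at this
    push_cast
    linarith
  have hlog : 0 < Real.log ((x : ℝ) / d) := Real.log_pos (by linarith)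
  have hlog2 : Real.log ((x : ℝ) / d) ≤ Real.log (((x / d + 1 : ℕ) : ℝ)) :=
    Real.log_le_log (by linarith) hN2
  have hC0 : 0 ≤ C := by linarith
  calc C * ((d : ℝ) / (Nat.totient d : ℝ)) * ((x / d + 1 : ℕ) : ℝ) / Real.log ((x / d + 1 : ℕ) : ℝ)
      ≤ C * ((d : ℝ) / (Nat.totient d : ℝ)) * (3 / 2 * ((x : ℝ) / d)) / Real.log ((x : ℝ) / d) := by
        gcongr
    _ = 3 / 2 * C * x / ((Nat.totient d : ℝ) * Real.log ((x : ℝ) / d)) := by
        field_simp

end Pool.Agent.L7h30.BP
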