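import Pool.Agent.L7h30.BP.Ord

set_option autoImplicit false

namespace Pool.Agent.L7h30.BP

open Finset Pool.Agent.L7h58.BP Filter

/-- the large prime factors of a product whose factors have no common large prime factor -/
lemma om_mul {w a b : ℕ} (ha : a ≠ 0) (hb : b ≠ 0)
    (h : ¬ ∃ p : ℕ, p.Prime ∧ w < p ∧ p ^ 2 ∣ a * b) : om w a + om w b ≤ (a * b).primeFactors.card := by
  unfold om
  rw [← card_union_of_disjoint]
  · apply card_le_card
    rw [Nat.primeFactors_mul ha hb]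
    exact union_subset_union (filter_subset _ _) (filter_subset _ _)
  · rw [disjoint_left]
    intro p hp hp'
    rw [mem_filter, Nat.mem_primeFactors] at hp hp'
    exact h ⟨p, hp.1.1, hp.2, by rw [pow_two]; exact mul_dvd_mul hp.1.2.1 hp'.1.2.1⟩

/-- union bound over a finite set of divisors -/
lemma cnt_bex {x : ℕ} {ι : Type} (S : Finset ι) (P : ι → ℕ → Prop) (Q : ℕ → Prop)
    (h : ∀ q, q.Prime → q ≤ x → Q q → ∃ d ∈ S, P d q) : cnt x Q ≤ ∑ d ∈ S, cnt x (P d) := by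
  classical
  rw [cnt_eq]
  have : ∀ d ∈ S, cnt x (P d) = ((range (x + 1)).filter (fun q => q.Prime ∧ P d q)).card :=
    fun d _ => cnt_eq x _
  rw [sum_congr rfl this]
  refine le_trans (card_le_card ?_) card_biUnion_le
  intro q hq
  simp only [mem_filter, mem_range, mem_biUnion] at hq ⊢
  obtain ⟨d, hd, hP⟩ := h q hq.2.1 (by omega) hq.2.2
  exact ⟨d, hd, hq.1, hq.2.1, hP⟩

lemma cnt_small (x : ℕ) (y : ℝ) (hy : 0 ≤ y) : (cnt x (fun q => (q : ℝ) ≤ y) : ℝ) ≤ y := by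
  classical
  rw [cnt_eq]
  have h : ((range (x + 1)).filter (fun q : ℕ => q.Prime ∧ (q : ℝ) ≤ y)).card ≤ ⌊y⌋₊ := by
    calc _ ≤ (Icc 1 ⌊y⌋₊).card := by
          apply card_le_card
          intro q hq
          simp only [mem_filter, mem_range, mem_Icc] at hq ⊢
          exact ⟨hq.2.1.one_lt.le, Nat.le_floor hq.2.2⟩
      _ = ⌊y⌋₊ := by simp
  calc ((((range (x + 1)).filter (fun q : ℕ => q.Prime ∧ (q : ℝ) ≤ y)).card : ℕ) : ℝ) ≤ (⌊y⌋₊ : ℝ) := by
        exact_mod_cast h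
    _ ≤ y := Nat.floor_le hy

theorem s_DV (hBT : S_BT) (hA : S_DVA) (hQ : S_DVQ) (hM : S_DVM) : S_DV := by
  classical
  intro ε hε
  obtain ⟨C, hC1, hC⟩ := hBT
  have hC0 : 0 < C := by linarith
  have he5 : (0 : ℝ) < ε / 5 := by linarith
  obtain ⟨w, hw⟩ := hQ (ε / 5) he5
  have heA : (0 : ℝ) < ε / (15 * C) := by positivity
  filter_upwards [hw, hM (ε / 5) he5, hA w (ε / (15 * C)) heA, ev_log_ge 1, ev_log_ge (10 / ε),
    ev_log 1 (r := 1) (c := ε / 10) one_pos (by positivity),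
    ev_log 9 (r := 1 / 6) (c := 1) (by norm_num) one_pos,
    ev_log 9 (r := 1 / 2) (c := 1 / 2) (by norm_num) (by norm_num),
    eventually_ge_atTop 3] with x hx1 hx2 hx3 hl hl2 hl3 hl4 hl5 hx0
  set L := Real.log (x : ℝ) with hL
  have hL0 : 0 < L := by linarith
  have hxr : (3 : ℝ) ≤ (x : ℝ) := by exact_mod_cast hx0
  have hxp : (0 : ℝ) < (x : ℝ) := by linarith
  have hsq : Real.sqrt (x : ℝ) = (x : ℝ) ^ (1 / 2 : ℝ) := Real.sqrt_eq_rpow _
  have hs0 : 0 < Real.sqrt (x : ℝ) := Real.sqrt_pos.2 hxp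
  have hss : Real.sqrt (x : ℝ) * Real.sqrt x = x := Real.mul_self_sqrt hxp.le
  rw [pow_one, Real.rpow_one] at hl3
  rw [one_mul] at hl4
  rw [← hsq] at hl5
  set S := (range (x + 1)).filter (fun d : ℕ => Real.sqrt x / L ^ 9 ≤ d ∧
      (d : ℝ) ≤ Real.sqrt x * L ^ 9 ∧ (om w d : ℝ) ≤ 3 / 4 * Real.log L) with hS
  have hL79 : L ^ 7 ≤ L ^ 9 := pow_le_pow_right₀ hl (by norm_num)
  have hL97 : L ^ 9 = L ^ 7 * L ^ 2 := by ring
  -- the split
  have key : cnt x (fun q => ∃ d : ℕ, d ∣ q - 1 ∧ Real.sqrt x / L ^ 7 ≤ d ∧ (d : ℝ) ≤ Real.sqrt x * L ^ 7) ≤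
      cnt x (fun q => (q : ℝ) ≤ x / L ^ 2 + 1) +
      (cnt x (fun q => ∃ p : ℕ, p.Prime ∧ w < p ∧ p ^ 2 ∣ q - 1) +
      (cnt x (fun q => 3 / 2 * Real.log L ≤ ((q - 1).primeFactors.card : ℝ)) +
      ∑ d ∈ S, cnt x (fun q => d ∣ q - 1))) := by
    refine (cnt_or (R := fun q => ¬ (q : ℝ) ≤ x / L ^ 2 + 1 ∧ ∃ d : ℕ, d ∣ q - 1 ∧
      Real.sqrt x / L ^ 7 ≤ d ∧ (d : ℝ) ≤ Real.sqrt x * L ^ 7) ?_).trans (Nat.add_le_add_left ?_ _)
    · intro q _ _ h
      by_cases h1 : (q : ℝ) ≤ x / L ^ 2 + 1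
      · exact Or.inl h1
      · exact Or.inr ⟨h1, h⟩
    refine (cnt_or (R := fun q => (¬ ∃ p : ℕ, p.Prime ∧ w < p ∧ p ^ 2 ∣ q - 1) ∧
      ¬ (q : ℝ) ≤ x / L ^ 2 + 1 ∧ ∃ d : ℕ, d ∣ q - 1 ∧
      Real.sqrt x / L ^ 7 ≤ d ∧ (d : ℝ) ≤ Real.sqrt x * L ^ 7) ?_).trans (Nat.add_le_add_left ?_ _)
    · intro q _ _ h
      by_cases h1 : ∃ p : ℕ, p.Prime ∧ w < p ∧ p ^ 2 ∣ q - 1
      · exact Or.inl h1
      · exact Or.inr ⟨h1, h⟩
    refine (cnt_or (R := fun q => ∃ d ∈ S, d ∣ q - 1) ?_).trans (Nat.add_le_add_left ?_ _)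
    · rintro q hq hqx ⟨h1, h2, d, hd, hd1, hd2⟩
      by_cases h3 : 3 / 2 * Real.log L ≤ ((q - 1).primeFactors.card : ℝ)
      · exact Or.inl h3
      right
      push Not at h2 h3
      have hq1 : q - 1 ≠ 0 := by have := hq.two_le; omega
      have hqr : ((q - 1 : ℕ) : ℝ) = (q : ℝ) - 1 := by
        rw [Nat.cast_sub hq.one_lt.le]; simp
      have hqlow : (x : ℝ) / L ^ 2 < ((q - 1 : ℕ) : ℝ) := by rw [hqr]; linarith
      have hqup : ((q - 1 : ℕ) : ℝ) ≤ x := by
        rw [hqr]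
        have : (q : ℝ) ≤ x := by exact_mod_cast hqx
        linarith
      obtain ⟨e, he⟩ := hd
      have hd0 : d ≠ 0 := by rintro rfl; simp at he; omega
      have he0 : e ≠ 0 := by rintro rfl; simp at he; omega
      have hdp : (0 : ℝ) < d := by exact_mod_cast Nat.pos_of_ne_zero hd0
      have hep : (0 : ℝ) < e := by exact_mod_cast Nat.pos_of_ne_zero he0
      have hder : ((q - 1 : ℕ) : ℝ) = d * e := by rw [he]; push_cast; ring
      have hom := om_mul (w := w) hd0 he0 (by rw [← he]; exact h1)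
      rw [← he] at hom
      have homr : (om w d : ℝ) + om w e < 3 / 2 * Real.log L := by
        refine lt_of_le_of_lt ?_ h3
        exact_mod_cast hom
      -- bounds of d
      have d1 : Real.sqrt x / L ^ 9 ≤ d := by
        refine le_trans ?_ hd1
        exact div_le_div_of_nonneg_left hs0.le (by positivity) hL79
      have d2 : (d : ℝ) ≤ Real.sqrt x * L ^ 9 := hd2.trans (mul_le_mul_of_nonneg_left hL79 hs0.le)
      have d3 : (e : ℝ) ≤ Real.sqrt x * L ^ 9 := by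
        have h4 : (d : ℝ) * e ≤ x := by rw [← hder]; exact hqup
        have h5 : Real.sqrt x / L ^ 7 * e ≤ x := (mul_le_mul_of_nonneg_right hd1 hep.le).trans h4
        rw [div_mul_eq_mul_div, div_le_iff₀ (by positivity)] at h5
        have h6 : Real.sqrt x * e ≤ Real.sqrt x * (Real.sqrt x * L ^ 7) := by
          calc _ ≤ (x : ℝ) * L ^ 7 := h5
            _ = Real.sqrt x * (Real.sqrt x * L ^ 7) := by rw [← mul_assoc, hss]
        have h7 := le_of_mul_le_mul_left h6 hs0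
        exact h7.trans (mul_le_mul_of_nonneg_left hL79 hs0.le)
      have d4 : Real.sqrt x / L ^ 9 ≤ e := by
        have h4 : (x : ℝ) / L ^ 2 < d * e := by rw [← hder]; exact hqlow
        have h5 : (x : ℝ) / L ^ 2 < Real.sqrt x * L ^ 7 * e :=
          h4.trans_le (mul_le_mul_of_nonneg_right hd2 hep.le)
        rw [div_lt_iff₀ (by positivity)] at h5
        have h6 : Real.sqrt x * Real.sqrt x < Real.sqrt x * (e * L ^ 9) := by
          rw [hss, hL97]
          calc (x : ℝ) < Real.sqrt x * L ^ 7 * e * L ^ 2 := h5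
            _ = Real.sqrt x * (e * (L ^ 7 * L ^ 2)) := by ring
        have h7 := lt_of_mul_lt_mul_left h6 hs0.le
        rw [div_le_iff₀ (by positivity)]
        exact h7.le
      have hdx : d ≤ x := by
        have : d ∣ q - 1 := ⟨e, he⟩
        have := Nat.le_of_dvd (Nat.pos_of_ne_zero hq1) this
        omega
      have hex : e ≤ x := by
        have : e ∣ q - 1 := ⟨d, by rw [he, mul_comm]⟩
        have := Nat.le_of_dvd (Nat.pos_of_ne_zero hq1) this
        omega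
      rcases le_or_gt (om w d : ℝ) (3 / 4 * Real.log L) with h8 | h8
      · refine ⟨d, ?_, ⟨e, he⟩⟩
        rw [hS, mem_filter, mem_range]
        exact ⟨by omega, d1, d2, h8⟩
      · refine ⟨e, ?_, ⟨d, by rw [he, mul_comm]⟩⟩
        rw [hS, mem_filter, mem_range]
        exact ⟨by omega, d4, d3, by linarith⟩
    · exact cnt_bex S (fun d q => d ∣ q - 1) _ (fun q _ _ h => h)
  have keyr : (cnt x (fun q => ∃ d : ℕ, d ∣ q - 1 ∧ Real.sqrt x / L ^ 7 ≤ d ∧
      (d : ℝ) ≤ Real.sqrt x * L ^ 7) : ℝ) ≤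
      (cnt x (fun q => (q : ℝ) ≤ x / L ^ 2 + 1) : ℝ) +
      ((cnt x (fun q => ∃ p : ℕ, p.Prime ∧ w < p ∧ p ^ 2 ∣ q - 1) : ℝ) +
      ((cnt x (fun q => 3 / 2 * Real.log L ≤ ((q - 1).primeFactors.card : ℝ)) : ℝ) +
      ∑ d ∈ S, (cnt x (fun q => d ∣ q - 1) : ℝ))) := by exact_mod_cast key
  have t1 : (cnt x (fun q => (q : ℝ) ≤ x / L ^ 2 + 1) : ℝ) ≤ ε / 5 * x / L := by
    refine (cnt_small x _ (by positivity)).trans ?_
    have h5 : 1 ≤ ε / 10 * L := by
      have := mul_le_mul_of_nonneg_left hl2 (show (0 : ℝ) ≤ ε / 10 by positivity)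
      have h6 : ε / 10 * (10 / ε) = 1 := by field_simp
      linarith
    have h6 : (x : ℝ) / L ^ 2 ≤ ε / 10 * x / L := by
      rw [div_le_div_iff₀ (by positivity) hL0]
      nlinarith [mul_nonneg hxp.le hL0.le]
    have h7 : (1 : ℝ) ≤ ε / 10 * x / L := by
      rw [le_div_iff₀ hL0, one_mul]
      exact hl3
    have h8 : ε / 5 * x / L = ε / 10 * x / L + ε / 10 * x / L := by ring
    rw [h8]
    exact add_le_add h6 h7
  have t4 : ∑ d ∈ S, (cnt x (fun q => d ∣ q - 1) : ℝ) ≤ ε / 5 * x / L := by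
    have h9 : ∀ d ∈ S, (cnt x (fun q => d ∣ q - 1) : ℝ) ≤ 3 * C * x / L * (1 / (Nat.totient d : ℝ)) := by
      intro d hd
      rw [hS, mem_filter, mem_range] at hd
      obtain ⟨_, hd1, hd2, _⟩ := hd
      have hdp : (0 : ℝ) < d := lt_of_lt_of_le (by positivity) hd1
      have hd0 : 0 < d := by exact_mod_cast hdp
      have h10 : (d : ℝ) ≤ x / 2 := by
        calc (d : ℝ) ≤ Real.sqrt x * L ^ 9 := hd2
          _ ≤ Real.sqrt x * (1 / 2 * Real.sqrt x) := mul_le_mul_of_nonneg_left hl5 hs0.le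
          _ = x / 2 := by rw [show Real.sqrt x * (1 / 2 * Real.sqrt x) = Real.sqrt x * Real.sqrt x / 2 by ring, hss]
      have h11 := hC d x hd0 (by
        have : (2 : ℝ) * d ≤ x := by linarith
        exact_mod_cast this)
      have hphi : (0 : ℝ) < (Nat.totient d : ℝ) := by exact_mod_cast Nat.totient_pos.2 hd0
      have h12 : (x : ℝ) ^ (1 / 3 : ℝ) ≤ (x : ℝ) / d := by
        rw [le_div_iff₀ hdp]
        calc (x : ℝ) ^ (1 / 3 : ℝ) * d ≤ (x : ℝ) ^ (1 / 3 : ℝ) * (Real.sqrt x * (x : ℝ) ^ (1 / 6 : ℝ)) := by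
              gcongr
              exact hd2.trans (mul_le_mul_of_nonneg_left hl4 hs0.le)
          _ = x := by
              rw [hsq, ← Real.rpow_add hxp, ← Real.rpow_add hxp]
              norm_num
      have h13 : L / 3 ≤ Real.log ((x : ℝ) / d) := by
        have h14 := Real.log_le_log (by positivity) h12
        rw [Real.log_rpow hxp] at h14
        rw [hL]
        linarith
      calc (cnt x (fun q => d ∣ q - 1) : ℝ) ≤ C * x / ((Nat.totient d : ℝ) * Real.log ((x : ℝ) / d)) := h11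
        _ ≤ C * x / ((Nat.totient d : ℝ) * (L / 3)) := by gcongr
        _ = 3 * C * x / L * (1 / (Nat.totient d : ℝ)) := by
            field_simp
    calc ∑ d ∈ S, (cnt x (fun q => d ∣ q - 1) : ℝ)
        ≤ ∑ d ∈ S, 3 * C * x / L * (1 / (Nat.totient d : ℝ)) := sum_le_sum h9
      _ = 3 * C * x / L * ∑ d ∈ S, (1 : ℝ) / (Nat.totient d : ℝ) := by rw [mul_sum]
      _ ≤ 3 * C * x / L * (ε / (15 * C)) := by
          apply mul_le_mul_of_nonneg_left hx3
          positivity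
      _ = ε / 5 * x / L := by
          field_simp
          norm_num
  calc _ ≤ _ := keyr
    _ ≤ ε / 5 * x / L + (ε / 5 * x / L + (ε / 5 * x / L + ε / 5 * x / L)) :=
        add_le_add t1 (add_le_add hx1 (add_le_add hx2 t4))
    _ ≤ ε * x / L := by
        have : 0 ≤ ε / 5 * x / L := by positivity
        have h15 : ε * x / L = 5 * (ε / 5 * x / L) := by ring
        rw [h15]
        linarith

end Pool.Agent.L7h30.BP
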