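import Pool.Agent.L7h30.BP.Ord
import Pool.Agent.Erdos456.Mertens

set_option autoImplicit false

namespace Pool.Agent.L7h30.BP

open Finset Pool.Agent.L7h58.BP Filter

/-- Double counting of the pairs `(A, q)` with `q ∈ A` (copied from H307R2.OP.ES). -/
theorem es_rec (B : Finset ℕ) (x : ℕ → ℝ) (k : ℕ) :
    ((k:ℝ) + 1) * ∑ A ∈ powersetCard (k + 1) B, ∏ q ∈ A, x q =
      ∑ A ∈ powersetCard k B, (∏ q ∈ A, x q) * ∑ q ∈ B \ A, x q := by
  have h1 : ((k:ℝ) + 1) * ∑ A ∈ powersetCard (k + 1) B, ∏ q ∈ A, x q =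
      ∑ A ∈ powersetCard (k + 1) B, ∑ q ∈ A, ∏ q' ∈ A, x q' := by
    rw [Finset.mul_sum]
    apply Finset.sum_congr rfl
    intro A hA
    rw [Finset.mem_powersetCard] at hA
    rw [Finset.sum_const, hA.2, nsmul_eq_mul]
    push_cast
    ring
  rw [h1]
  simp_rw [Finset.mul_sum]
  rw [Finset.sum_sigma', Finset.sum_sigma']
  refine Finset.sum_bij' (fun a _ => ⟨a.1.erase a.2, a.2⟩) (fun a _ => ⟨insert a.2 a.1, a.2⟩)
    ?_ ?_ ?_ ?_ ?_
  · rintro ⟨A, q⟩ h
    simp only [Finset.mem_sigma, Finset.mem_powersetCard, Finset.mem_sdiff] at h ⊢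
    refine ⟨⟨(Finset.erase_subset _ _).trans h.1.1, ?_⟩, h.1.1 h.2, Finset.notMem_erase _ _⟩
    rw [Finset.card_erase_of_mem h.2, h.1.2]
    rfl
  · rintro ⟨A, q⟩ h
    simp only [Finset.mem_sigma, Finset.mem_powersetCard, Finset.mem_sdiff] at h ⊢
    refine ⟨⟨Finset.insert_subset h.2.1 h.1.1, ?_⟩, Finset.mem_insert_self _ _⟩
    rw [Finset.card_insert_of_notMem h.2.2, h.1.2]
  · rintro ⟨A, q⟩ h
    simp only [Finset.mem_sigma, Finset.mem_powersetCard] at h
    simp only [Finset.insert_erase h.2]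
  · rintro ⟨A, q⟩ h
    simp only [Finset.mem_sigma, Finset.mem_powersetCard, Finset.mem_sdiff] at h
    simp only [Finset.erase_insert h.2.2]
  · rintro ⟨A, q⟩ h
    simp only [Finset.mem_sigma, Finset.mem_powersetCard] at h
    simp only
    rw [Finset.prod_erase_mul _ _ h.2]

theorem es_up (B : Finset ℕ) (x : ℕ → ℝ) (k : ℕ) (hx : ∀ q ∈ B, 0 ≤ x q) :
    ∑ A ∈ powersetCard k B, ∏ q ∈ A, x q ≤ (∑ q ∈ B, x q) ^ k / (k.factorial : ℝ) := by
  induction k with
  | zero => simp
  | succ k ih =>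
    have hk : (0:ℝ) < (k:ℝ) + 1 := by positivity
    have h1 := es_rec B x k
    have h2 : ∑ A ∈ powersetCard k B, (∏ q ∈ A, x q) * ∑ q ∈ B \ A, x q ≤
        (∑ A ∈ powersetCard k B, ∏ q ∈ A, x q) * ∑ q ∈ B, x q := by
      rw [Finset.sum_mul]
      apply Finset.sum_le_sum
      intro A hA
      rw [Finset.mem_powersetCard] at hA
      apply mul_le_mul_of_nonneg_left
      · exact Finset.sum_le_sum_of_subset_of_nonneg Finset.sdiff_subset (fun q hq _ => hx q hq)
      · exact Finset.prod_nonneg (fun q hq => hx q (hA.1 hq))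
    have hS : 0 ≤ ∑ q ∈ B, x q := Finset.sum_nonneg hx
    have h3 := mul_le_mul_of_nonneg_right ih hS
    have h4 : ((k:ℝ) + 1) * ∑ A ∈ powersetCard (k + 1) B, ∏ q ∈ A, x q ≤
        (∑ q ∈ B, x q) ^ k / (k.factorial : ℝ) * ∑ q ∈ B, x q := by
      rw [h1]; exact h2.trans h3
    have hf : (0:ℝ) < (k.factorial : ℝ) := by exact_mod_cast Nat.factorial_pos k
    rw [Nat.factorial_succ]
    push_cast
    rw [le_div_iff₀ (by positivity)]
    calc (∑ A ∈ powersetCard (k + 1) B, ∏ q ∈ A, x q) * (((k:ℝ) + 1) * (k.factorial : ℝ))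
        = (((k:ℝ) + 1) * ∑ A ∈ powersetCard (k + 1) B, ∏ q ∈ A, x q) * (k.factorial : ℝ) := by ring
      _ ≤ ((∑ q ∈ B, x q) ^ k / (k.factorial : ℝ) * ∑ q ∈ B, x q) * (k.factorial : ℝ) :=
          mul_le_mul_of_nonneg_right h4 hf.le
      _ = (∑ q ∈ B, x q) ^ (k + 1) := by
          rw [pow_succ]; field_simp

/-- a number `n ≤ z ^ m` has at most `m` prime factors greater than `z` -/
lemma card_large {n m : ℕ} {z : ℝ} (hz : 1 < z) (hn : n ≠ 0) (h : (n : ℝ) ≤ z ^ m) (F : Finset ℕ)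
    (hF : F ⊆ n.primeFactors) (hF2 : ∀ p ∈ F, z ≤ (p : ℝ)) : F.card ≤ m := by
  have h1 : ∏ p ∈ F, p ∣ n := (prod_dvd_prod_of_subset _ _ _ hF).trans (Nat.prod_primeFactors_dvd n)
  have h2 : ((∏ p ∈ F, p : ℕ) : ℝ) ≤ n := by
    exact_mod_cast Nat.le_of_dvd (Nat.pos_of_ne_zero hn) h1
  have h3 : z ^ F.card ≤ ((∏ p ∈ F, p : ℕ) : ℝ) := by
    push_cast
    calc z ^ F.card = ∏ _p ∈ F, z := by rw [prod_const]
      _ ≤ ∏ p ∈ F, (p : ℝ) := prod_le_prod (fun _ _ => by linarith) hF2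
  exact (pow_le_pow_iff_right₀ hz).1 (h3.trans (h2.trans h))

/-- the sum of the `1 / (p - 1)` -/
lemma sum_inv : ∃ C : ℝ, 0 ≤ C ∧ ∀ N : ℕ, 3 ≤ N →
    ∑ p ∈ (Icc 1 N).filter Nat.Prime, 1 / ((p : ℝ) - 1) ≤ Real.log (Real.log N) + C := by
  obtain ⟨C, hC⟩ := Pool.Agent.Erdos456.Mert.mertens_inv
  have hC0 : 0 ≤ C := (abs_nonneg _).trans (hC 3 le_rfl)
  refine ⟨C + 1, by linarith, fun N hN => ?_⟩
  have h1 := (abs_le.1 (hC N hN)).2
  have h2 : ∑ p ∈ (Icc 1 N).filter Nat.Prime, (1 / ((p : ℝ) - 1) - 1 / p) ≤ 1 := by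
    have tel : ∀ M : ℕ, 1 ≤ M → ∑ m ∈ Icc 2 M, (1 / ((m : ℝ) - 1) - 1 / m) = 1 - 1 / (M : ℝ) := by
      intro M hM
      induction M, hM using Nat.le_induction with
      | base => simp
      | succ M hM ih =>
        rw [sum_Icc_succ_top (by omega), ih]
        push_cast
        ring
    calc ∑ p ∈ (Icc 1 N).filter Nat.Prime, (1 / ((p : ℝ) - 1) - 1 / p)
        ≤ ∑ m ∈ Icc 2 N, (1 / ((m : ℝ) - 1) - 1 / m) := by
          apply sum_le_sum_of_subset_of_nonneg
          · intro p hp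
            rw [mem_filter, mem_Icc] at hp
            rw [mem_Icc]
            exact ⟨hp.2.two_le, hp.1.2⟩
          · intro m hm _
            rw [mem_Icc] at hm
            have h3 : (2 : ℝ) ≤ m := by exact_mod_cast hm.1
            have h4 : (1 : ℝ) / m ≤ 1 / ((m : ℝ) - 1) := one_div_le_one_div_of_le (by linarith) (by linarith)
            linarith
      _ = 1 - 1 / (N : ℝ) := tel N (by omega)
      _ ≤ 1 := by
          have : (0 : ℝ) ≤ 1 / (N : ℝ) := by positivity
          linarith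
  rw [sum_sub_distrib] at h2
  linarith

/-- the totient of a product of distinct primes -/
lemma totient_prod (T : Finset ℕ) (hT : ∀ p ∈ T, p.Prime) :
    (Nat.totient (∏ p ∈ T, p) : ℝ) = ∏ p ∈ T, ((p : ℝ) - 1) := by
  classical
  induction T using Finset.induction_on with
  | empty => simp
  | insert a s ha ih =>
    rw [prod_insert ha, prod_insert ha, Nat.totient_mul, Nat.totient_prime (hT a (mem_insert_self _ _)),
      Nat.cast_mul, ih (fun p hp => hT p (mem_insert_of_mem hp)),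
      Nat.cast_sub (hT a (mem_insert_self _ _)).one_lt.le]
    · simp
    · apply Nat.Coprime.prod_right
      intro p hp
      exact (Nat.coprime_primes (hT a (mem_insert_self _ _)) (hT p (mem_insert_of_mem hp))).2
        (fun h => ha (h ▸ hp))

lemma moment (x y k R : ℕ) (Q : ℕ → Prop)
    (h : ∀ q, q.Prime → q ≤ x → Q q → R ≤ ((q - 1).primeFactors.filter (fun p => p ≤ y)).card) :
    cnt x Q * R.choose k ≤
      ∑ T ∈ powersetCard k ((Icc 1 y).filter Nat.Prime), cnt x (fun q => (∏ p ∈ T, p) ∣ q - 1) := by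
  classical
  rw [cnt_eq]
  set F := (range (x + 1)).filter (fun q => q.Prime ∧ Q q) with hF
  have hc : ∀ T ∈ powersetCard k ((Icc 1 y).filter Nat.Prime),
      cnt x (fun q => (∏ p ∈ T, p) ∣ q - 1) =
      ((range (x + 1)).filter (fun q => q.Prime ∧ (∏ p ∈ T, p) ∣ q - 1)).card := fun T _ => cnt_eq x _
  rw [sum_congr rfl hc]
  calc F.card * R.choose k = ∑ _q ∈ F, R.choose k := by rw [sum_const, smul_eq_mul]
    _ ≤ ∑ q ∈ F, ((powersetCard k ((Icc 1 y).filter Nat.Prime)).filter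
          (fun T => (∏ p ∈ T, p) ∣ q - 1)).card := by
        apply sum_le_sum
        intro q hq
        rw [hF, mem_filter, mem_range] at hq
        calc R.choose k ≤ (((q - 1).primeFactors.filter (fun p => p ≤ y)).card).choose k :=
              Nat.choose_le_choose k (h q hq.2.1 (by omega) hq.2.2)
          _ = (powersetCard k ((q - 1).primeFactors.filter (fun p => p ≤ y))).card := by
              rw [card_powersetCard]
          _ ≤ _ := by
              apply card_le_card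
              intro T hT
              rw [mem_powersetCard] at hT
              rw [mem_filter, mem_powersetCard]
              refine ⟨⟨fun p hp => ?_, hT.2⟩, ?_⟩
              · have := hT.1 hp
                rw [mem_filter, Nat.mem_primeFactors] at this
                rw [mem_filter, mem_Icc]
                exact ⟨⟨this.1.1.one_lt.le, this.2⟩, this.1.1⟩
              · exact (prod_dvd_prod_of_subset _ _ _ (hT.1.trans (filter_subset _ _))).trans
                  (Nat.prod_primeFactors_dvd (q - 1))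
    _ = ∑ T ∈ powersetCard k ((Icc 1 y).filter Nat.Prime),
          (F.filter (fun q => (∏ p ∈ T, p) ∣ q - 1)).card := by
        simp_rw [card_filter]
        rw [sum_comm]
    _ ≤ _ := by
        apply sum_le_sum
        intro T _
        apply card_le_card
        intro q hq
        rw [hF, mem_filter, mem_filter, mem_range] at hq
        rw [mem_filter, mem_range]
        exact ⟨hq.1.1, hq.1.2.1, hq.2⟩

lemma ev_loglog_ge (M : ℝ) : ∀ᶠ x : ℕ in atTop, M ≤ Real.log (Real.log x) :=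
  (Real.tendsto_log_atTop.comp
    (Real.tendsto_log_atTop.comp tendsto_natCast_atTop_atTop)).eventually_ge_atTop M

theorem s_DVM (hBT : S_BT) : S_DVM := by
  classical
  intro ε hε
  obtain ⟨C, hC1, hC⟩ := hBT
  have hC0 : 0 < C := by linarith
  obtain ⟨C2, hC20, hC2⟩ := sum_inv
  obtain ⟨k, hk1, hk⟩ : ∃ k : ℕ, 1 ≤ k ∧ 2 * C * (3 / 4 : ℝ) ^ k ≤ ε := by
    obtain ⟨k, hk⟩ := exists_pow_lt_of_lt_one (show (0 : ℝ) < ε / (2 * C) by positivity)
      (show (3 / 4 : ℝ) < 1 by norm_num)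
    refine ⟨k + 1, by omega, ?_⟩
    have h1 : (3 / 4 : ℝ) ^ (k + 1) ≤ (3 / 4 : ℝ) ^ k :=
      pow_le_pow_of_le_one (by norm_num) (by norm_num) (by omega)
    have h2 : (3 / 4 : ℝ) ^ (k + 1) ≤ ε / (2 * C) := h1.trans hk.le
    rw [le_div_iff₀ (by positivity)] at h2
    linarith
  have hkr : (1 : ℝ) ≤ k := by exact_mod_cast hk1
  have hr : (0 : ℝ) < 1 / (2 * (k : ℝ)) := by positivity
  have hbig : ∀ᶠ x : ℕ in atTop, 3 ≤ (x : ℝ) ^ (1 / (2 * (k : ℝ))) :=
    ((tendsto_rpow_atTop hr).comp tendsto_natCast_atTop_atTop).eventually_ge_atTop 3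
  filter_upwards [hbig, ev_log_ge 1, ev_loglog_ge (8 * C2 + 18 * k + 4 * k + 1), eventually_ge_atTop 4] with
    x hx3 hL1 hll hx4
  set L := Real.log (x : ℝ) with hL
  set ll := Real.log L with hlldef
  have hL0 : 0 < L := by linarith
  have hx4r : (4 : ℝ) ≤ x := by exact_mod_cast hx4
  have hx0 : (0 : ℝ) < x := by linarith
  set z := (x : ℝ) ^ (1 / (2 * (k : ℝ))) with hz
  have hz1 : 1 < z := by linarith
  have hz2k : z ^ (2 * k) = x := by
    rw [hz, ← Real.rpow_natCast, ← Real.rpow_mul hx0.le]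
    push_cast
    rw [one_div, inv_mul_cancel₀ (by positivity), Real.rpow_one]
  set y := ⌊z⌋₊ with hy
  have hyz : (y : ℝ) ≤ z := Nat.floor_le (by linarith)
  have hy3 : 3 ≤ y := Nat.le_floor (by exact_mod_cast hx3)
  have hyx : (y : ℝ) ≤ x := by
    calc (y : ℝ) ≤ z := hyz
      _ = z ^ 1 := (pow_one z).symm
      _ ≤ z ^ (2 * k) := pow_le_pow_right₀ hz1.le (by omega)
      _ = x := hz2k
  have hy3r : (3 : ℝ) ≤ y := by exact_mod_cast hy3
  set B := (Icc 1 y).filter Nat.Prime with hB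
  set S := ∑ p ∈ B, 1 / ((p : ℝ) - 1) with hS
  have hSle : S ≤ ll + C2 := by
    have h1 := hC2 y hy3
    have h2 : Real.log (Real.log y) ≤ ll := by
      have h3 : (1 : ℝ) ≤ Real.log 3 := by
        rw [Real.le_log_iff_exp_le (by norm_num)]
        have := Real.exp_one_lt_d9
        linarith
      have h4 : Real.log 3 ≤ Real.log y := Real.log_le_log (by norm_num) hy3r
      have h5 : Real.log y ≤ L := Real.log_le_log (by linarith) hyx
      exact Real.log_le_log (by linarith) h5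
    linarith
  have hS0 : 0 ≤ S := by
    apply sum_nonneg
    intro p hp
    rw [hB, mem_filter] at hp
    have : (2 : ℝ) ≤ p := by exact_mod_cast hp.2.two_le
    exact one_div_nonneg.2 (by linarith)
  set r := ⌈3 / 2 * ll⌉₊ with hrdef
  set R := r - 2 * k with hR
  have hrr : 3 / 2 * ll ≤ (r : ℝ) := Nat.le_ceil _
  have hR1 : 3 / 2 * ll - 3 * k ≤ ((R + 1 - k : ℕ) : ℝ) := by
    have h1 : r ≤ (R + 1 - k) + 3 * k := by omega
    have h2 : (r : ℝ) ≤ ((R + 1 - k : ℕ) : ℝ) + 3 * k := by exact_mod_cast h1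
    linarith
  have hρ : S ≤ 3 / 4 * ((R + 1 - k : ℕ) : ℝ) := by
    have : 3 / 4 * (3 / 2 * ll - 3 * k) ≤ 3 / 4 * ((R + 1 - k : ℕ) : ℝ) :=
      mul_le_mul_of_nonneg_left hR1 (by norm_num)
    linarith
  have hpos : 0 < ((R + 1 - k : ℕ) : ℝ) := by
    linarith
  have hpos' : 0 < R + 1 - k := by exact_mod_cast hpos
  have hkR : k ≤ R := by omega
  have hch : (0 : ℝ) < (R.choose k : ℝ) := by exact_mod_cast Nat.choose_pos hkR
  have hfac : (0 : ℝ) < (k.factorial : ℝ) := by exact_mod_cast Nat.factorial_pos k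
  have hSk : S ^ k / k.factorial ≤ (3 / 4 : ℝ) ^ k * (R.choose k : ℝ) := by
    rw [div_le_iff₀ hfac]
    have h1 : (R + 1 - k) ^ k ≤ R.descFactorial k := Nat.pow_sub_le_descFactorial R k
    have h2 : (((R + 1 - k : ℕ) : ℝ)) ^ k ≤ (R.descFactorial k : ℝ) := by exact_mod_cast h1
    have h3 : (R.descFactorial k : ℝ) = k.factorial * R.choose k := by
      exact_mod_cast Nat.descFactorial_eq_factorial_mul_choose R k
    calc S ^ k ≤ (3 / 4 * ((R + 1 - k : ℕ) : ℝ)) ^ k := pow_le_pow_left₀ hS0 hρ k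
      _ = (3 / 4 : ℝ) ^ k * (((R + 1 - k : ℕ) : ℝ)) ^ k := mul_pow _ _ _
      _ ≤ (3 / 4 : ℝ) ^ k * (R.descFactorial k : ℝ) := mul_le_mul_of_nonneg_left h2 (by positivity)
      _ = (3 / 4 : ℝ) ^ k * (R.choose k : ℝ) * k.factorial := by rw [h3]; ring
  -- the count of small prime factors
  have hsmall : ∀ q, q.Prime → q ≤ x → 3 / 2 * Real.log (Real.log x) ≤ ((q - 1).primeFactors.card : ℝ) →
      R ≤ ((q - 1).primeFactors.filter (fun p => p ≤ y)).card := by
    intro q hq hqx h1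
    have h2 : r ≤ (q - 1).primeFactors.card := Nat.ceil_le.2 h1
    have h3 := card_filter_add_card_filter_not (s := (q - 1).primeFactors) (fun p => p ≤ y)
    have hq1 : q - 1 ≠ 0 := by have := hq.two_le; omega
    have h4 : ((q - 1).primeFactors.filter (fun p => ¬ p ≤ y)).card ≤ 2 * k := by
      apply card_large hz1 hq1 _ _ (filter_subset _ _)
      · intro p hp
        rw [mem_filter] at hp
        have h5 : y + 1 ≤ p := by omega
        have h6 : z < (y : ℝ) + 1 := Nat.lt_floor_add_one z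
        have h7 : (y : ℝ) + 1 ≤ p := by exact_mod_cast h5
        linarith
      · rw [hz2k]
        exact_mod_cast (by omega : q - 1 ≤ x)
    omega
  have key := moment x y k R _ hsmall
  have keyr : (cnt x (fun q => 3 / 2 * Real.log (Real.log x) ≤ ((q - 1).primeFactors.card : ℝ)) : ℝ) *
      (R.choose k : ℝ) ≤ ∑ T ∈ powersetCard k B, (cnt x (fun q => (∏ p ∈ T, p) ∣ q - 1) : ℝ) := by
    exact_mod_cast key
  have hT : ∀ T ∈ powersetCard k B, (cnt x (fun q => (∏ p ∈ T, p) ∣ q - 1) : ℝ) ≤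
      2 * C * x / L * ∏ p ∈ T, (1 / ((p : ℝ) - 1)) := by
    intro T hT
    rw [mem_powersetCard] at hT
    have hTp : ∀ p ∈ T, p.Prime := fun p hp => by
      have := hT.1 hp
      rw [hB, mem_filter] at this
      exact this.2
    have hTy : ∀ p ∈ T, p ≤ y := fun p hp => by
      have := hT.1 hp
      rw [hB, mem_filter, mem_Icc] at this
      exact this.1.2
    set d := ∏ p ∈ T, p with hd
    have hd0 : 0 < d := prod_pos (fun p hp => (hTp p hp).pos)
    have hdr : (0 : ℝ) < d := by exact_mod_cast hd0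
    have hdz : (d : ℝ) ≤ z ^ k := by
      rw [hd]
      push_cast
      calc ∏ p ∈ T, (p : ℝ) ≤ ∏ _p ∈ T, z := by
            apply prod_le_prod (fun _ _ => by positivity)
            intro p hp
            have : (p : ℝ) ≤ y := by exact_mod_cast hTy p hp
            linarith
        _ = z ^ k := by rw [prod_const, hT.2]
    have hzz : z ^ k * z ^ k = x := by rw [← pow_add, ← two_mul]; exact hz2k
    have hzk : 0 < z ^ k := by positivity
    have hzks : z ^ k ≥ 2 := by
      calc z ^ k ≥ z ^ 1 := pow_le_pow_right₀ hz1.le hk1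
        _ ≥ 2 := by rw [pow_one]; linarith
    have h2d : 2 * d ≤ x := by
      have : (2 : ℝ) * d ≤ x := by
        calc (2 : ℝ) * d ≤ z ^ k * z ^ k := by
              apply mul_le_mul hzks hdz hdr.le hzk.le
          _ = x := hzz
      exact_mod_cast this
    have h11 := hC d x hd0 h2d
    have h12 : z ^ k ≤ (x : ℝ) / d := by
      rw [le_div_iff₀ hdr]
      calc z ^ k * d ≤ z ^ k * z ^ k := mul_le_mul_of_nonneg_left hdz hzk.le
        _ = x := hzz
    have h13 : L / 2 ≤ Real.log ((x : ℝ) / d) := by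
      have h14 := Real.log_le_log hzk h12
      have h15 : L = 2 * Real.log (z ^ k) := by
        rw [hL, ← hzz, Real.log_mul hzk.ne' hzk.ne']
        ring
      linarith
    have hphi : (0 : ℝ) < (Nat.totient d : ℝ) := by exact_mod_cast Nat.totient_pos.2 hd0
    calc (cnt x (fun q => d ∣ q - 1) : ℝ) ≤ C * x / ((Nat.totient d : ℝ) * Real.log ((x : ℝ) / d)) := h11
      _ ≤ C * x / ((Nat.totient d : ℝ) * (L / 2)) := by gcongr
      _ = 2 * C * x / L * (1 / (Nat.totient d : ℝ)) := by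
          field_simp
      _ = 2 * C * x / L * ∏ p ∈ T, (1 / ((p : ℝ) - 1)) := by
          rw [hd, totient_prod T hTp, prod_div_distrib, prod_const_one]
  have hSum : ∑ T ∈ powersetCard k B, ∏ p ∈ T, (1 / ((p : ℝ) - 1)) ≤ S ^ k / k.factorial := by
    apply es_up
    intro p hp
    rw [hB, mem_filter] at hp
    have : (2 : ℝ) ≤ p := by exact_mod_cast hp.2.two_le
    exact one_div_nonneg.2 (by linarith)
  have fin : (cnt x (fun q => 3 / 2 * Real.log (Real.log x) ≤ ((q - 1).primeFactors.card : ℝ)) : ℝ) *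
      (R.choose k : ℝ) ≤ (ε * x / L) * (R.choose k : ℝ) := by
    calc _ ≤ ∑ T ∈ powersetCard k B, (cnt x (fun q => (∏ p ∈ T, p) ∣ q - 1) : ℝ) := keyr
      _ ≤ ∑ T ∈ powersetCard k B, 2 * C * x / L * ∏ p ∈ T, (1 / ((p : ℝ) - 1)) := sum_le_sum hT
      _ = 2 * C * x / L * ∑ T ∈ powersetCard k B, ∏ p ∈ T, (1 / ((p : ℝ) - 1)) := by rw [mul_sum]
      _ ≤ 2 * C * x / L * ((3 / 4 : ℝ) ^ k * (R.choose k : ℝ)) := by
          apply mul_le_mul_of_nonneg_left (hSum.trans hSk)
          positivity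
      _ = (2 * C * (3 / 4 : ℝ) ^ k) * (x / L) * (R.choose k : ℝ) := by ring
      _ ≤ ε * (x / L) * (R.choose k : ℝ) := by
          gcongr
      _ = (ε * x / L) * (R.choose k : ℝ) := by ring
  exact le_of_mul_le_mul_right fin hch

end Pool.Agent.L7h30.BP
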