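import Pool.Agent.L7h30.BP.Ord

set_option autoImplicit false

namespace Pool.Agent.L7h30.BP

open Finset Pool.Agent.L7h58.BP Filter

lemma cnt_bex' {x : ℕ} {ι : Type} (S : Finset ι) (P : ι → ℕ → Prop) (Q : ℕ → Prop)
    (h : ∀ q, q.Prime → q ≤ x → Q q → ∃ d ∈ S, P d q) : cnt x Q ≤ ∑ d ∈ S, cnt x (P d) := by
  classical
  rw [cnt_eq]
  have : ∀ d ∈ S, cnt x (P d) = ((range (x + 1)).filter (fun q => q.Prime ∧ P d q)).card :=
    fun d _ => cnt_eq x _
  rw [sum_congr rfl this]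
  refine le_trans (card_le_card ?_) card_biUnion_le
  intro q hq
  simp only [mem_filter, mem_range, mem_biUnion] at hq ⊢
  obtain ⟨d, hd, hP⟩ := h q hq.2.1 (by omega) hq.2.2
  exact ⟨d, hd, hq.1, hq.2.1, hP⟩

lemma cnt_triv (x d : ℕ) (hd : 0 < d) : cnt x (fun q => d ∣ q - 1) ≤ x / d := by
  classical
  rw [cnt_eq]
  calc ((range (x + 1)).filter (fun q => q.Prime ∧ d ∣ q - 1)).card ≤ (Icc 1 (x / d)).card := by
        apply card_le_card_of_injOn (fun q => (q - 1) / d)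
        · intro q hq
          simp only [coe_filter, mem_range, Set.mem_ofPred_eq, coe_Icc, Set.mem_Icc] at hq ⊢
          obtain ⟨h1, h2, h3⟩ := hq
          have h4 := h2.two_le
          refine ⟨?_, Nat.div_le_div_right (by omega)⟩
          exact (Nat.one_le_div_iff hd).2 (Nat.le_of_dvd (by omega) h3)
        · intro q hq q' hq' he
          simp only [coe_filter, mem_range, Set.mem_ofPred_eq] at hq hq' he
          have e1 := Nat.div_mul_cancel hq.2.2
          have e2 := Nat.div_mul_cancel hq'.2.2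
          rw [he] at e1
          have := hq.2.1.two_le
          have := hq'.2.1.two_le
          omega
    _ = x / d := by simp

lemma tel (a : ℕ) (ha : 1 ≤ a) (b : ℕ) :
    ∑ m ∈ Ioc a b, 1 / ((m : ℝ) * ((m : ℝ) - 1)) ≤ 1 / (a : ℝ) := by
  have ha' : (1 : ℝ) ≤ a := by exact_mod_cast ha
  rcases lt_or_ge b a with hb | hb
  · rw [Ioc_eq_empty (by omega), sum_empty]
    positivity
  · have key : ∑ m ∈ Ioc a b, 1 / ((m : ℝ) * ((m : ℝ) - 1)) = 1 / (a : ℝ) - 1 / b := by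
      induction b, hb using Nat.le_induction with
      | base => simp
      | succ b hb ih =>
        have hb' : (1 : ℝ) ≤ b := by exact_mod_cast ha.trans hb
        rw [sum_Ioc_succ_top (by omega), ih]
        push_cast
        have : (b : ℝ) + 1 - 1 = b := by ring
        rw [this]
        field_simp
        ring
    rw [key]
    have : (0 : ℝ) ≤ 1 / (b : ℝ) := by positivity
    linarith

theorem s_DVQ (hBT : S_BT) : S_DVQ := by
  classical
  intro ε hε
  obtain ⟨C, hC1, hC⟩ := hBT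
  have hC0 : 0 < C := by linarith
  obtain ⟨w0, hw0⟩ := exists_nat_ge (4 * C / ε)
  set w := w0 + 1 with hw
  have hw1 : 1 ≤ w := by omega
  have hwr : 4 * C / ε ≤ (w : ℝ) := by
    rw [hw]; push_cast; linarith
  have hw1r : (1 : ℝ) ≤ w := by exact_mod_cast hw1
  refine ⟨w, ?_⟩
  filter_upwards [ev_log_ge 1, ev_log 1 (r := 1 / 4) (c := ε / 4) (by norm_num) (by positivity),
    eventually_ge_atTop 16] with x hL1 hlog hx16
  set L := Real.log (x : ℝ) with hL
  have hL0 : 0 < L := by linarith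
  rw [pow_one] at hlog
  have hx16r : (16 : ℝ) ≤ x := by exact_mod_cast hx16
  have hx0 : (0 : ℝ) < x := by linarith
  set z := (x : ℝ) ^ (1 / 4 : ℝ) with hz
  have hz4 : z ^ 4 = x := by
    rw [hz, ← Real.rpow_natCast, ← Real.rpow_mul hx0.le]
    norm_num
  have hz0 : 0 < z := Real.rpow_pos_of_pos hx0 _
  have hz2 : 2 ≤ z := by
    by_contra h
    push Not at h
    have : z ^ 4 < 2 ^ 4 := pow_lt_pow_left₀ h hz0.le (by norm_num)
    rw [hz4] at this
    linarith
  set M := ⌊z⌋₊ with hM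
  have hMz : (M : ℝ) ≤ z := Nat.floor_le hz0.le
  have hM2 : 2 ≤ M := Nat.le_floor (by exact_mod_cast hz2)
  have hM2r : (2 : ℝ) ≤ M := by exact_mod_cast hM2
  have hMl : z / 2 ≤ M := by
    have : z < (M : ℝ) + 1 := Nat.lt_floor_add_one z
    linarith
  -- split
  have key : cnt x (fun q => ∃ p : ℕ, p.Prime ∧ w < p ∧ p ^ 2 ∣ q - 1) ≤
      ∑ p ∈ (Ioc w M).filter Nat.Prime, cnt x (fun q => p ^ 2 ∣ q - 1) +
      ∑ p ∈ Ioc M x, cnt x (fun q => p ^ 2 ∣ q - 1) := by
    refine (cnt_or (Q := fun q => ∃ p ∈ (Ioc w M).filter Nat.Prime, p ^ 2 ∣ q - 1)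
      (R := fun q => ∃ p ∈ Ioc M x, p ^ 2 ∣ q - 1) ?_).trans (add_le_add ?_ ?_)
    · rintro q hq hqx ⟨p, hp, hwp, hd⟩
      rcases le_or_gt p M with h | h
      · left
        exact ⟨p, by rw [mem_filter, mem_Ioc]; exact ⟨⟨hwp, h⟩, hp⟩, hd⟩
      · right
        refine ⟨p, ?_, hd⟩
        rw [mem_Ioc]
        refine ⟨h, ?_⟩
        have h1 := hq.two_le
        have h2 := Nat.le_of_dvd (by omega) hd
        have h3 : p ≤ p ^ 2 := Nat.le_self_pow (by norm_num) p
        omega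
    · exact cnt_bex' _ (fun p q => p ^ 2 ∣ q - 1) _ (fun q _ _ h => h)
    · exact cnt_bex' _ (fun p q => p ^ 2 ∣ q - 1) _ (fun q _ _ h => h)
  have keyr : (cnt x (fun q => ∃ p : ℕ, p.Prime ∧ w < p ∧ p ^ 2 ∣ q - 1) : ℝ) ≤
      ∑ p ∈ (Ioc w M).filter Nat.Prime, (cnt x (fun q => p ^ 2 ∣ q - 1) : ℝ) +
      ∑ p ∈ Ioc M x, (cnt x (fun q => p ^ 2 ∣ q - 1) : ℝ) := by exact_mod_cast key
  have t1 : ∑ p ∈ (Ioc w M).filter Nat.Prime, (cnt x (fun q => p ^ 2 ∣ q - 1) : ℝ) ≤ ε / 2 * (x / L) := by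
    have h1 : ∀ p ∈ (Ioc w M).filter Nat.Prime, (cnt x (fun q => p ^ 2 ∣ q - 1) : ℝ) ≤
        2 * C * x / L * (1 / ((p : ℝ) * ((p : ℝ) - 1))) := by
      intro p hp
      rw [mem_filter, mem_Ioc] at hp
      obtain ⟨⟨hwp, hpM⟩, hpp⟩ := hp
      have hp2 : (2 : ℝ) ≤ p := by exact_mod_cast hpp.two_le
      have hpz : (p : ℝ) ≤ z := le_trans (by exact_mod_cast hpM) hMz
      have hpz2 : (p : ℝ) ^ 2 ≤ z ^ 2 := pow_le_pow_left₀ (by linarith) hpz 2
      have hzz : z ^ 2 * z ^ 2 = x := by rw [← hz4]; ring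
      have hz22 : 2 ≤ z ^ 2 := by nlinarith
      have h2d : 2 * p ^ 2 ≤ x := by
        have : (2 : ℝ) * (p : ℝ) ^ 2 ≤ x := by
          calc (2 : ℝ) * (p : ℝ) ^ 2 ≤ z ^ 2 * z ^ 2 := mul_le_mul hz22 hpz2 (by positivity) (by positivity)
            _ = x := hzz
        exact_mod_cast this
      have h11 := hC (p ^ 2) x (pow_pos hpp.pos 2) h2d
      have hphi : (Nat.totient (p ^ 2) : ℝ) = (p : ℝ) * ((p : ℝ) - 1) := by
        rw [Nat.totient_prime_pow hpp (by norm_num : 0 < 2), Nat.cast_mul, Nat.cast_sub hpp.one_lt.le]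
        push_cast
        ring
      rw [hphi] at h11
      have hden : 0 < (p : ℝ) * ((p : ℝ) - 1) := mul_pos (by linarith) (by linarith)
      have h12 : z ^ 2 ≤ (x : ℝ) / ((p ^ 2 : ℕ) : ℝ) := by
        push_cast
        rw [le_div_iff₀ (by positivity)]
        calc z ^ 2 * (p : ℝ) ^ 2 ≤ z ^ 2 * z ^ 2 := mul_le_mul_of_nonneg_left hpz2 (by positivity)
          _ = x := hzz
      have h13 : L / 2 ≤ Real.log ((x : ℝ) / ((p ^ 2 : ℕ) : ℝ)) := by
        have h14 := Real.log_le_log (by positivity) h12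
        have h15 : L = 2 * Real.log (z ^ 2) := by
          rw [hL, ← hzz, Real.log_mul (by positivity) (by positivity)]
          ring
        linarith
      calc (cnt x (fun q => p ^ 2 ∣ q - 1) : ℝ)
          ≤ C * x / ((p : ℝ) * ((p : ℝ) - 1) * Real.log ((x : ℝ) / ((p ^ 2 : ℕ) : ℝ))) := h11
        _ ≤ C * x / ((p : ℝ) * ((p : ℝ) - 1) * (L / 2)) := by gcongr
        _ = 2 * C * x / L * (1 / ((p : ℝ) * ((p : ℝ) - 1))) := by
            have : ((p : ℝ) - 1) ≠ 0 := by linarith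
            field_simp
    calc _ ≤ ∑ p ∈ (Ioc w M).filter Nat.Prime, 2 * C * x / L * (1 / ((p : ℝ) * ((p : ℝ) - 1))) := sum_le_sum h1
      _ = 2 * C * x / L * ∑ p ∈ (Ioc w M).filter Nat.Prime, 1 / ((p : ℝ) * ((p : ℝ) - 1)) := by rw [mul_sum]
      _ ≤ 2 * C * x / L * (1 / (w : ℝ)) := by
          apply mul_le_mul_of_nonneg_left _ (by positivity)
          refine le_trans ?_ (tel w hw1 M)
          apply sum_le_sum_of_subset_of_nonneg (filter_subset _ _)
          intro m hm _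
          rw [mem_Ioc] at hm
          have : (1 : ℝ) ≤ m := by exact_mod_cast (by omega : 1 ≤ m)
          exact one_div_nonneg.2 (mul_nonneg (by linarith) (by linarith))
      _ ≤ 2 * C * x / L * (ε / (4 * C)) := by
          apply mul_le_mul_of_nonneg_left _ (by positivity)
          rw [div_le_iff₀ (by linarith : (0 : ℝ) < w)]
          rw [div_le_iff₀ hε] at hwr
          rw [div_mul_eq_mul_div, le_div_iff₀ (by positivity)]
          linarith
      _ = ε / 2 * (x / L) := by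
          field_simp
          norm_num
  have t2 : ∑ p ∈ Ioc M x, (cnt x (fun q => p ^ 2 ∣ q - 1) : ℝ) ≤ ε / 2 * (x / L) := by
    have h1 : ∀ p ∈ Ioc M x, (cnt x (fun q => p ^ 2 ∣ q - 1) : ℝ) ≤
        x * (1 / ((p : ℝ) * ((p : ℝ) - 1))) := by
      intro p hp
      rw [mem_Ioc] at hp
      have hp1 : (2 : ℝ) < p := by exact_mod_cast (by omega : 2 < p)
      have h2 : (cnt x (fun q => p ^ 2 ∣ q - 1) : ℝ) ≤ ((x / p ^ 2 : ℕ) : ℝ) := by
        exact_mod_cast cnt_triv x (p ^ 2) (pow_pos (by omega) 2)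
      have h3 : ((x / p ^ 2 : ℕ) : ℝ) ≤ (x : ℝ) / ((p ^ 2 : ℕ) : ℝ) := Nat.cast_div_le
      refine h2.trans (h3.trans ?_)
      push_cast
      rw [div_eq_mul_one_div]
      apply mul_le_mul_of_nonneg_left _ hx0.le
      apply one_div_le_one_div_of_le (mul_pos (by linarith) (by linarith))
      nlinarith
    calc _ ≤ ∑ p ∈ Ioc M x, x * (1 / ((p : ℝ) * ((p : ℝ) - 1))) := sum_le_sum h1
      _ = x * ∑ p ∈ Ioc M x, 1 / ((p : ℝ) * ((p : ℝ) - 1)) := by rw [mul_sum]
      _ ≤ x * (1 / (M : ℝ)) := mul_le_mul_of_nonneg_left (tel M (by omega) x) hx0.le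
      _ ≤ x * (1 / (z / 2)) := by
          apply mul_le_mul_of_nonneg_left _ hx0.le
          exact one_div_le_one_div_of_le (by positivity) hMl
      _ ≤ ε / 2 * (x / L) := by
          have h5 : 1 / (z / 2) ≤ ε / 2 * (1 / L) := by
            rw [one_div_div, div_le_iff₀ hz0, mul_one_div, div_mul_eq_mul_div, le_div_iff₀ hL0]
            linarith
          calc (x : ℝ) * (1 / (z / 2)) ≤ x * (ε / 2 * (1 / L)) := mul_le_mul_of_nonneg_left h5 hx0.le
            _ = ε / 2 * (x / L) := by ring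
  calc _ ≤ _ := keyr
    _ ≤ ε / 2 * (x / L) + ε / 2 * (x / L) := add_le_add t1 t2
    _ = ε * x / L := by ring

end Pool.Agent.L7h30.BP
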