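import Pool.Agent.L7h30.BP.Bt

set_option autoImplicit false

namespace Pool.Agent.L7h30.BP

open Finset Pool.Agent.L7h58.BP Filter

lemma cnt_or {x : ℕ} {P Q R : ℕ → Prop} (h : ∀ q, q.Prime → q ≤ x → P q → Q q ∨ R q) :
    cnt x P ≤ cnt x Q + cnt x R := by
  classical
  rw [cnt_eq, cnt_eq, cnt_eq]
  refine (card_le_card ?_).trans (card_union_le _ _)
  intro q hq
  simp only [mem_filter, mem_range, mem_union] at hq ⊢
  rcases h q hq.2.1 (by omega) hq.2.2 with h1 | h1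
  · exact Or.inl ⟨hq.1, hq.2.1, h1⟩
  · exact Or.inr ⟨hq.1, hq.2.1, h1⟩

/-- powers of the logarithm are small -/
lemma ev_log (k : ℕ) {r c : ℝ} (hr : 0 < r) (hc : 0 < c) :
    ∀ᶠ x : ℕ in atTop, (Real.log x) ^ k ≤ c * (x : ℝ) ^ r := by
  rcases Nat.eq_zero_or_pos k with hk | hk
  · subst hk
    have h : Tendsto (fun x : ℕ => c * (x : ℝ) ^ r) atTop atTop :=
      ((tendsto_rpow_atTop hr).comp tendsto_natCast_atTop_atTop).const_mul_atTop hc
    filter_upwards [h.eventually_ge_atTop 1] with x hx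
    simpa using hx
  · have hk' : (0 : ℝ) < k := by exact_mod_cast hk
    have h1 := (isLittleO_log_rpow_atTop (r := r / k) (by positivity)).pow hk
    have h2 := (h1.comp_tendsto tendsto_natCast_atTop_atTop).bound hc
    filter_upwards [h2, eventually_ge_atTop 1] with x hx hx1
    simp only [Function.comp, norm_pow, Real.norm_eq_abs] at hx
    have hx1' : (1 : ℝ) ≤ x := by exact_mod_cast hx1
    have hx0 : (0 : ℝ) ≤ (x : ℝ) := by linarith
    have hl : 0 ≤ Real.log (x : ℝ) := Real.log_nonneg hx1'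
    rw [abs_of_nonneg hl, abs_of_nonneg (Real.rpow_nonneg hx0 _), ← Real.rpow_natCast (((x : ℝ)) ^ (r / k)),
      ← Real.rpow_mul hx0, div_mul_cancel₀ _ hk'.ne'] at hx
    exact hx

lemma ev_log_ge (M : ℝ) : ∀ᶠ x : ℕ in atTop, M ≤ Real.log x :=
  (Real.tendsto_log_atTop.comp tendsto_natCast_atTop_atTop).eventually_ge_atTop M

theorem s_ORD (h1 : S_OB) (h2 : S_DV) : S_ORD := by
  intro ε hε
  have he : (0 : ℝ) < ε / 2 := by linarith
  filter_upwards [h2 (ε / 2) he, ev_log_ge 1, ev_log_ge (2 / ε), eventually_ge_atTop 3] with x hx hl hl2 hx3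
  set L := Real.log (x : ℝ) with hL
  have hL0 : 0 < L := by linarith
  have hx0 : (0 : ℝ) ≤ (x : ℝ) := Nat.cast_nonneg x
  set Y := ⌊Real.sqrt x / L⌋₊ with hY
  have key : cnt x (fun q => 2 < q ∧ (orderOf (2 : ZMod q) : ℝ) ≤ Real.sqrt x * L ^ 7) ≤
      cnt x (fun q => 2 < q ∧ orderOf (2 : ZMod q) ≤ Y) +
      cnt x (fun q => ∃ d : ℕ, d ∣ q - 1 ∧ Real.sqrt x / L ^ 7 ≤ d ∧ (d : ℝ) ≤ Real.sqrt x * L ^ 7) := by
    apply cnt_or
    rintro q hq hqx ⟨h3, h4⟩
    by_cases h5 : orderOf (2 : ZMod q) ≤ Y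
    · exact Or.inl ⟨h3, h5⟩
    · right
      haveI : Fact q.Prime := ⟨hq⟩
      refine ⟨orderOf (2 : ZMod q), ?_, ?_, h4⟩
      · apply ZMod.orderOf_dvd_card_sub_one
        intro h
        have h' : ((2 : ℕ) : ZMod q) = 0 := by exact_mod_cast h
        rw [ZMod.natCast_eq_zero_iff] at h'
        exact absurd (Nat.le_of_dvd (by norm_num) h') (by omega)
      · push Not at h5
        have h6 : Real.sqrt x / L < ((orderOf (2 : ZMod q) : ℕ) : ℝ) := by
          have := (Nat.floor_lt (by positivity)).1 h5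
          exact this
        refine le_trans ?_ h6.le
        apply div_le_div_of_nonneg_left (Real.sqrt_nonneg _) hL0
        calc L = L ^ 1 := (pow_one L).symm
          _ ≤ L ^ 7 := pow_le_pow_right₀ hl (by norm_num)
  have hob : (cnt x (fun q => 2 < q ∧ orderOf (2 : ZMod q) ≤ Y) : ℝ) ≤ ε / 2 * x / L := by
    have h3 : (cnt x (fun q => 2 < q ∧ orderOf (2 : ZMod q) ≤ Y) : ℝ) ≤ ((Y ^ 2 : ℕ) : ℝ) := by
      exact_mod_cast h1 x Y
    refine h3.trans ?_
    push_cast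
    have h4 : (Y : ℝ) ≤ Real.sqrt x / L := Nat.floor_le (by positivity)
    calc (Y : ℝ) ^ 2 ≤ (Real.sqrt x / L) ^ 2 := by gcongr
      _ = x / L ^ 2 := by rw [div_pow, Real.sq_sqrt hx0]
      _ ≤ ε / 2 * x / L := by
        rw [div_le_div_iff₀ (by positivity) hL0]
        have h5 : 1 ≤ ε / 2 * L := by
          have := mul_le_mul_of_nonneg_left hl2 he.le
          have h6 : ε / 2 * (2 / ε) = 1 := by field_simp
          linarith
        nlinarith [mul_nonneg hx0 hL0.le]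
  have h7 : (cnt x (fun q => 2 < q ∧ (orderOf (2 : ZMod q) : ℝ) ≤ Real.sqrt x * L ^ 7) : ℝ) ≤
      (cnt x (fun q => 2 < q ∧ orderOf (2 : ZMod q) ≤ Y) : ℝ) +
      (cnt x (fun q => ∃ d : ℕ, d ∣ q - 1 ∧ Real.sqrt x / L ^ 7 ≤ d ∧
        (d : ℝ) ≤ Real.sqrt x * L ^ 7) : ℝ) := by exact_mod_cast key
  calc _ ≤ _ := h7
    _ ≤ ε / 2 * x / L + ε / 2 * x / L := add_le_add hob hx
    _ = ε * x / L := by ring

end Pool.Agent.L7h30.BP
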