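import Pool.Agent.L7h58.BP.Stm2

set_option autoImplicit false

namespace Pool.Agent.L7h30.BP

open Finset Polynomial Pool.Agent.L7h58.BP

/-- the polynomial `∑_{j ≤ J} c_j y^(J-j)` -/
def PP {R : Type} [CommRing R] (c : ℕ → R) (J : ℕ) (y : R) : R := ∑ j ∈ range (J + 1), c j * y ^ (J - j)

lemma pp_sub {R : Type} [CommRing R] (c : ℕ → R) (J : ℕ) (hJ : 1 ≤ J) (h0 : c 0 = 1) (h1 : (3 : R) ∣ c 1 + 1)
    (h2 : ∀ j, 2 ≤ j → (3 : R) ∣ c j) (a b : R) (ha : (3 : R) ∣ a - 1) (hb : (3 : R) ∣ b - 1) :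
    ∃ t : R, PP c J a - PP c J b = (a - b) * (1 + 3 * t) := by
  obtain ⟨J', rfl⟩ : ∃ J', J = J' + 1 := ⟨J - 1, by omega⟩
  have hg : ∀ k : ℕ, ∃ g, a ^ k - b ^ k = (a - b) * g := fun k => sub_dvd_pow_sub_pow a b k
  choose g hg using hg
  obtain ⟨s1, hs1⟩ := h1
  have hs : ∀ j, ∃ s, 2 ≤ j → c j = 3 * s := by
    intro j
    by_cases hj : 2 ≤ j
    · obtain ⟨s, hs⟩ := h2 j hj
      exact ⟨s, fun _ => hs⟩
    · exact ⟨0, fun h => absurd h hj⟩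
  choose s hs using hs
  obtain ⟨a', ha'⟩ := ha
  obtain ⟨b', hb'⟩ := hb
  -- a ^ J' = 1 mod 3
  have h3 : (3 : R) ∣ a ^ J' - 1 := by
    have h4 : a - 1 ∣ a ^ J' - 1 := by
      have := sub_dvd_pow_sub_pow a 1 J'
      rwa [one_pow] at this
    exact (Dvd.intro _ ha'.symm).trans h4
  obtain ⟨u, hu⟩ := h3
  have e : ∀ y : R, PP c (J' + 1) y = y ^ (J' + 1) + c 1 * y ^ J' +
      ∑ j ∈ range J', c (j + 2) * y ^ (J' + 1 - (j + 2)) := by
    intro y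
    unfold PP
    rw [sum_range_succ', sum_range_succ', h0]
    simp only [Nat.sub_zero, one_mul, zero_add, Nat.add_sub_cancel]
    have e0 : ∀ j : ℕ, j + 1 + 1 = j + 2 := fun j => rfl
    simp only [e0]
    ring
  have e2 : ∑ j ∈ range J', c (j + 2) * a ^ (J' + 1 - (j + 2)) -
      ∑ j ∈ range J', c (j + 2) * b ^ (J' + 1 - (j + 2)) =
      (a - b) * (3 * ∑ j ∈ range J', s (j + 2) * g (J' + 1 - (j + 2))) := by
    rw [← sum_sub_distrib, mul_sum, mul_sum]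
    apply sum_congr rfl
    intro j _
    rw [← mul_sub, hg, hs (j + 2) (by omega)]
    ring
  refine ⟨u + g J' * b' + s1 * g J' + ∑ j ∈ range J', s (j + 2) * g (J' + 1 - (j + 2)), ?_⟩
  have e3 : a ^ J' = 1 + 3 * u := by rw [← hu]; ring
  have e4 : b = 1 + 3 * b' := by rw [← hb']; ring
  have e5 : c 1 = -1 + 3 * s1 := by rw [← hs1]; ring
  have e6 : PP c (J' + 1) a - PP c (J' + 1) b =
      a ^ J' * (a - b) + (a ^ J' - b ^ J') * (b - 1) + 3 * s1 * (a ^ J' - b ^ J') +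
      (∑ j ∈ range J', c (j + 2) * a ^ (J' + 1 - (j + 2)) -
      ∑ j ∈ range J', c (j + 2) * b ^ (J' + 1 - (j + 2))) := by
    rw [e a, e b, e5]
    ring
  rw [e6, e2, hg J', hb', e3]
  ring

lemma isUnit_one_add (t : ℤ_[3]) : IsUnit (1 + 3 * t) := by
  rw [PadicInt.isUnit_iff]
  have h : ‖(3 : ℤ_[3]) * t‖ < 1 := by
    have h3 : ‖((3 : ℕ) : ℤ_[3])‖ < 1 := by
      rw [PadicInt.norm_p]
      norm_num
    rw [norm_mul]
    calc ‖(3 : ℤ_[3])‖ * ‖t‖ ≤ ‖(3 : ℤ_[3])‖ * 1 := by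
          apply mul_le_mul_of_nonneg_left (PadicInt.norm_le_one t) (norm_nonneg _)
      _ < 1 := by
          rw [mul_one]
          exact_mod_cast h3
  have h1 : ‖(1 : ℤ_[3])‖ = 1 := norm_one
  have := PadicInt.norm_add_eq_max_of_ne (p := 3) (q := 1) (r := 3 * t) (by rw [h1]; exact h.ne')
  rw [this, h1, max_eq_left h.le]

theorem s_TAD (h : S_TDA) : S_TAD := by
  obtain ⟨c, hdiv, hc0, ⟨e1, he1⟩, ⟨e2, he2⟩, ⟨e3, he3⟩, ⟨e4, he4⟩, ⟨e5, he5⟩, hrel⟩ := h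
  intro M
  set J := 2 * M + 5 with hJ
  have hJM : M ≤ 2 * (J + 1) / 3 := by omega
  have h1 : (3 : ℤ_[3][X]) ∣ c 1 + 1 :=
    ⟨12 * X + 12 * X ^ 2 + 27 * e1, by rw [he1]; ring⟩
  have h2 : ∀ j, 2 ≤ j → (3 : ℤ_[3][X]) ∣ c j := by
    intro j hj
    obtain ⟨d, hd⟩ := hdiv j
    rw [hd]
    exact (dvd_pow_self 3 (by omega : 2 * j / 3 ≠ 0)).trans (Dvd.intro _ rfl)
  -- the start
  have hstart : ∀ e : ℤ_[3][X], (81 : ℤ_[3][X]) ∣
      PP c J (1 + 51 * X + 9 * X ^ 2 + 27 * X ^ 3 + 81 * e) := by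
    intro e
    set y0 : ℤ_[3][X] := 1 + 51 * X + 9 * X ^ 2 + 27 * X ^ 3 with hy0
    obtain ⟨t, ht⟩ := pp_sub c J (by omega) hc0 h1 h2 (y0 + 81 * e) y0
      ⟨17 * X + 3 * X ^ 2 + 9 * X ^ 3 + 27 * e, by rw [hy0]; ring⟩
      ⟨17 * X + 3 * X ^ 2 + 9 * X ^ 3, by rw [hy0]; ring⟩
    have h3 : PP c J (y0 + 81 * e) = PP c J y0 + 81 * (e * (1 + 3 * t)) := by
      have : PP c J (y0 + 81 * e) = PP c J y0 + (y0 + 81 * e - y0) * (1 + 3 * t) := by rw [← ht]; ring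
      rw [this]; ring
    rw [h3]
    refine dvd_add ?_ (Dvd.intro _ rfl)
    unfold PP
    rw [show J + 1 = 6 + 2 * M by omega, sum_range_add]
    apply dvd_add
    · have e0 : ∑ j ∈ range 6, c j * y0 ^ (J - j) =
          y0 ^ (J - 5) * (y0 ^ 5 + c 1 * y0 ^ 4 + c 2 * y0 ^ 3 + c 3 * y0 ^ 2 + c 4 * y0 + c 5) := by
        have hp : ∀ i, i ≤ 5 → y0 ^ (J - (5 - i)) = y0 ^ (J - 5) * y0 ^ i := by
          intro i hi
          rw [← pow_add]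
          congr 1
          omega
        have p0 := hp 0 (by omega)
        have p1 := hp 1 (by omega)
        have p2 := hp 2 (by omega)
        have p3 := hp 3 (by omega)
        have p4 := hp 4 (by omega)
        have p5 := hp 5 (by omega)
        norm_num at p0 p1 p2 p3 p4 p5
        simp only [sum_range_succ, sum_range_zero, zero_add, hc0, one_mul]
        rw [p1, p2, p3, p4, show y0 ^ (J - 0) = y0 ^ (J - 5) * y0 ^ 5 from by
          rw [← pow_add]; congr 1]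
        ring
      rw [e0]
      apply Dvd.dvd.mul_left
      refine ⟨e1 * y0 ^ 4 + e2 * y0 ^ 3 + e3 * y0 ^ 2 + e4 * y0 + e5 +
        (X + 197 * X ^ 2 + 16870 * X ^ 3 + 586362 * X ^ 4 + 7829319 * X ^ 5 + 10121814 * X ^ 6 +
        22454064 * X ^ 7 + 19429551 * X ^ 8 + 23528232 * X ^ 9 + 14281110 * X ^ 10 + 11263050 * X ^ 11 +
        4573017 * X ^ 12 + 2421009 * X ^ 13 + 531441 * X ^ 14 + 177147 * X ^ 15), ?_⟩
      rw [he1, he2, he3, he4, he5, hy0]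
      ring
    · apply dvd_sum
      intro j _
      obtain ⟨d, hd⟩ := hdiv (6 + j)
      rw [hd]
      have : (81 : ℤ_[3][X]) ∣ 3 ^ (2 * (6 + j) / 3) := by
        have h4 : (81 : ℤ_[3][X]) = 3 ^ 4 := by norm_num
        rw [h4]
        exact pow_dvd_pow _ (by omega)
      exact (this.trans (Dvd.intro _ rfl)).trans (Dvd.intro _ rfl)
  -- the iteration
  have hit : ∀ k : ℕ, ∃ e : ℤ_[3][X], (3 : ℤ_[3][X]) ^ k ∣
      PP c J (1 + 51 * X + 9 * X ^ 2 + 27 * X ^ 3 + 81 * e) := by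
    intro k
    induction k with
    | zero => exact ⟨0, by simp⟩
    | succ k ih =>
      obtain ⟨e, he⟩ := ih
      obtain ⟨f, hf⟩ := hstart e
      set y : ℤ_[3][X] := 1 + 51 * X + 9 * X ^ 2 + 27 * X ^ 3 + 81 * e with hy
      refine ⟨e - f, ?_⟩
      have hy' : 1 + 51 * X + 9 * X ^ 2 + 27 * X ^ 3 + 81 * (e - f) = y - PP c J y := by
        rw [hf, hy]; ring
      rw [hy']
      obtain ⟨t, ht⟩ := pp_sub c J (by omega) hc0 h1 h2 (y - PP c J y) y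
        ⟨17 * X + 3 * X ^ 2 + 9 * X ^ 3 + 27 * e - 27 * f, by rw [hf, hy]; ring⟩
        ⟨17 * X + 3 * X ^ 2 + 9 * X ^ 3 + 27 * e, by rw [hy]; ring⟩
      have h5 : PP c J (y - PP c J y) = - (PP c J y * (3 * t)) := by
        have : PP c J (y - PP c J y) = PP c J y + (y - PP c J y - y) * (1 + 3 * t) := by rw [← ht]; ring
        rw [this]; ring
      rw [h5, dvd_neg, pow_succ]
      exact mul_dvd_mul he (Dvd.intro _ rfl)
  obtain ⟨e, he⟩ := hit M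
  set y : ℤ_[3][X] := 1 + 51 * X + 9 * X ^ 2 + 27 * X ^ 3 + 81 * e with hy
  refine ⟨y, e, hy, ?_⟩
  intro m Y hY hR
  -- evaluation at m
  set c' : ℕ → ℤ_[3] := fun j => (c j).eval (m : ℤ_[3]) with hc'
  have hc'0 : c' 0 = 1 := by simp only [hc', hc0, eval_one]
  have hc'1 : (3 : ℤ_[3]) ∣ c' 1 + 1 := by
    obtain ⟨g, hg⟩ := h1
    refine ⟨g.eval (m : ℤ_[3]), ?_⟩
    have := congrArg (fun q => q.eval (m : ℤ_[3])) hg
    simpa [hc'] using this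
  have hc'2 : ∀ j, 2 ≤ j → (3 : ℤ_[3]) ∣ c' j := by
    intro j hj
    obtain ⟨g, hg⟩ := h2 j hj
    refine ⟨g.eval (m : ℤ_[3]), ?_⟩
    have := congrArg (fun q => q.eval (m : ℤ_[3])) hg
    simpa [hc'] using this
  have hev : PP c' J (y.eval (m : ℤ_[3])) = (PP c J y).eval (m : ℤ_[3]) := by
    unfold PP
    rw [eval_finsetSum]
    simp [hc']
  have hd1 : (3 : ℤ_[3]) ^ M ∣ PP c' J (y.eval (m : ℤ_[3])) := by
    rw [hev]
    obtain ⟨g, hg⟩ := he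
    refine ⟨g.eval (m : ℤ_[3]), ?_⟩
    rw [hg]
    simp
  have hd2 : (3 : ℤ_[3]) ^ M ∣ PP c' J (Y : ℤ_[3]) :=
    (pow_dvd_pow _ hJM).trans (hrel m J Y hY hR)
  have hY1 : (3 : ℤ_[3]) ∣ (Y : ℤ_[3]) - 1 := by
    have h6 := hrel m 1 Y hY hR
    norm_num [sum_range_succ] at h6
    have h7 : (c 0).eval (m : ℤ_[3]) = 1 := hc'0
    rw [h7, one_mul] at h6
    have h8 := dvd_sub h6 hc'1
    have h9 : (Y : ℤ_[3]) + (c 1).eval (m : ℤ_[3]) - (c' 1 + 1) = (Y : ℤ_[3]) - 1 := by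
      simp only [hc']; ring
    rwa [h9] at h8
  have hy1 : (3 : ℤ_[3]) ∣ y.eval (m : ℤ_[3]) - 1 := by
    refine ⟨(17 * X + 3 * X ^ 2 + 9 * X ^ 3 + 27 * e).eval (m : ℤ_[3]), ?_⟩
    have : y - 1 = 3 * (17 * X + 3 * X ^ 2 + 9 * X ^ 3 + 27 * e) := by rw [hy]; ring
    have := congrArg (fun q => q.eval (m : ℤ_[3])) this
    simpa using this
  obtain ⟨t, ht⟩ := pp_sub c' J (by omega) hc'0 hc'1 hc'2 (Y : ℤ_[3]) (y.eval (m : ℤ_[3])) hY1 hy1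
  have h10 : (3 : ℤ_[3]) ^ M ∣ ((Y : ℤ_[3]) - y.eval (m : ℤ_[3])) * (1 + 3 * t) := by
    rw [← ht]
    exact dvd_sub hd2 hd1
  exact (isUnit_one_add t).dvd_mul_right.1 h10

end Pool.Agent.L7h30.BP
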