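import Pool.Agent.L7h58.BP.Stm2

set_option autoImplicit false

namespace Pool.Agent.L7h30.BP

open Finset Polynomial Pool.Agent.L7h58.BP

lemma norm3 : ‖(3 : ℚ_[3])‖ = 1 / 3 := by
  have : (3 : ℚ_[3]) = ((3 : ℕ) : ℚ_[3]) := by norm_num
  rw [this, Padic.norm_p]
  norm_num

lemma norm_sum3 (s : Finset ℕ) (f : ℕ → ℚ_[3]) (B : ℝ) (hB : 0 ≤ B) (h : ∀ i ∈ s, ‖f i‖ ≤ B) :
    ‖∑ i ∈ s, f i‖ ≤ B := by
  classical
  induction s using Finset.induction_on with
  | empty => simpa using hB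
  | insert a s ha ih =>
    rw [sum_insert ha]
    refine (Padic.nonarchimedean _ _).trans (max_le (h a (mem_insert_self _ _)) ?_)
    exact ih (fun i hi => h i (mem_insert_of_mem hi))

/-- von Staudt: `3 B_(2j)` is a 3-adic integer -/
lemma norm_bern (j : ℕ) : ‖((_root_.bernoulli (2 * j) : ℚ) : ℚ_[3])‖ ≤ 3 := by
  obtain ⟨z, hz⟩ := Bernoulli.vonStaudt_clausen j
  have h1 : _root_.bernoulli (2 * j) = (z : ℚ) +
      (-∑ p ∈ range (2 * j + 2) with p.Prime ∧ (p - 1) ∣ 2 * j, (1 : ℚ) / p) := by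
    rw [hz]; ring
  rw [h1]
  push_cast
  refine (Padic.nonarchimedean _ _).trans (max_le ?_ ?_)
  · exact (Padic.norm_int_le_one z).trans (by norm_num)
  · rw [norm_neg]
    apply norm_sum3 _ _ _ (by norm_num)
    intro p hp
    rw [mem_filter] at hp
    have hpp := hp.2.1
    rw [norm_div, norm_one]
    by_cases h3 : p = 3
    · rw [h3]
      have := norm3
      push_cast
      rw [this]
      norm_num
    · have : ‖(p : ℚ_[3])‖ = 1 := by
        rw [Padic.norm_natCast_eq_one_iff]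
        exact (Nat.coprime_primes Nat.prime_three hpp).2 (Ne.symm h3)
      rw [this]
      norm_num

/-- the number `β_j / (2j)!` -/
noncomputable def bq (j : ℕ) : ℚ := be j / ((2 * j).factorial : ℚ)

lemma norm_bq (j : ℕ) : ‖((bq j : ℚ) : ℚ_[3])‖ ≤ 1 := by
  rcases Nat.eq_zero_or_pos j with hj | hj
  · subst hj
    simp [bq, be]
    norm_num
  · have hv := sub_one_mul_padicValNat_factorial_lt_of_ne_zero 3 (n := 2 * j) (by omega)
    set v := padicValNat 3 (2 * j).factorial with hvdef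
    obtain ⟨u, hu⟩ : 3 ^ v ∣ (2 * j).factorial := pow_padicValNat_dvd
    have hu3 : Nat.Coprime 3 u := by
      rw [Nat.Prime.coprime_iff_not_dvd Nat.prime_three]
      rintro ⟨t, ht⟩
      have h1 : 3 ^ (v + 1) ∣ (2 * j).factorial := ⟨t, by rw [hu, ht, pow_succ]; ring⟩
      exact pow_succ_padicValNat_not_dvd (Nat.factorial_ne_zero _) h1
    have hun : ‖(u : ℚ_[3])‖ = 1 := Padic.norm_natCast_eq_one_iff.2 hu3
    have hfac : ‖(((2 * j).factorial : ℕ) : ℚ_[3])‖ = (1 / 3 : ℝ) ^ v := by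
      rw [hu]
      push_cast
      rw [norm_mul, norm_pow, norm3, hun, mul_one]
    have h24 : ‖((2 : ℚ_[3]) - 4 ^ j)‖ ≤ 1 := by
      have := Padic.norm_int_le_one (p := 3) (2 - 4 ^ j)
      push_cast at this
      exact this
    have hB := norm_bern j
    unfold bq be
    push_cast
    rw [norm_div, norm_mul, norm_mul, norm_pow, norm3, hfac, div_le_one (by positivity)]
    have hvj : v + 1 ≤ j := by omega
    calc (1 / 3 : ℝ) ^ j * ‖(2 : ℚ_[3]) - 4 ^ j‖ * ‖((_root_.bernoulli (2 * j) : ℚ) : ℚ_[3])‖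
        ≤ (1 / 3 : ℝ) ^ j * 1 * 3 := by gcongr
      _ ≤ (1 / 3 : ℝ) ^ (v + 1) * 1 * 3 := by
          gcongr ?_ * 1 * 3
          exact pow_le_pow_of_le_one (by norm_num) (by norm_num) hvj
      _ = (1 / 3 : ℝ) ^ v := by rw [pow_succ]; ring

/-- `β_j / (2j)!` as a 3-adic integer -/
noncomputable def Bz (j : ℕ) : ℤ_[3] := ⟨((bq j : ℚ) : ℚ_[3]), norm_bq j⟩

lemma Bz_coe (j : ℕ) : ((Bz j : ℤ_[3]) : ℚ_[3]) = ((bq j : ℚ) : ℚ_[3]) := rfl

noncomputable def cc (j : ℕ) : ℤ_[3][X] := C (Bz j) * ∏ i ∈ range (2 * j), (2 - (i : ℤ_[3][X]) + 3 * X)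

lemma prod_div (l : ℕ) : ∃ d : ℤ_[3][X], ∏ i ∈ range l, (2 - (i : ℤ_[3][X]) + 3 * X) = 3 ^ (l / 3) * d := by
  induction l with
  | zero => exact ⟨1, by simp⟩
  | succ l ih =>
    obtain ⟨d, hd⟩ := ih
    rw [prod_range_succ, hd]
    by_cases h : l % 3 = 2
    · have h1 : (l + 1) / 3 = l / 3 + 1 := by omega
      have h2 : l = 3 * (l / 3) + 2 := by omega
      refine ⟨d * (X - ((l / 3 : ℕ) : ℤ_[3][X])), ?_⟩
      rw [h1]
      have h3 : (l : ℤ_[3][X]) = 3 * ((l / 3 : ℕ) : ℤ_[3][X]) + 2 := by exact_mod_cast congrArg (Nat.cast : ℕ → ℤ_[3][X]) h2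
      rw [h3]
      ring
    · have h1 : (l + 1) / 3 = l / 3 := by omega
      rw [h1]
      exact ⟨d * (2 - (l : ℤ_[3][X]) + 3 * X), by ring⟩

lemma cc_div (j : ℕ) : ∃ d : ℤ_[3][X], cc j = 3 ^ (2 * j / 3) * d := by
  obtain ⟨d, hd⟩ := prod_div (2 * j)
  exact ⟨C (Bz j) * d, by unfold cc; rw [hd]; ring⟩

lemma desc (n l : ℕ) : ∏ i ∈ range l, ((n : ℤ_[3]) - i) = ((n.descFactorial l : ℕ) : ℤ_[3]) := by
  induction l with
  | zero => simp
  | succ l ih =>
    rw [prod_range_succ, ih, Nat.descFactorial_succ]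
    rcases le_or_gt l n with h | h
    · push_cast [Nat.cast_sub h]
      ring
    · rw [Nat.descFactorial_eq_zero_iff_lt.2 h]
      simp

lemma cc_eval (j m : ℕ) : (((cc j).eval (m : ℤ_[3]) : ℤ_[3]) : ℚ_[3]) =
    (((((2 + 3 * m).choose (2 * j) : ℕ) : ℚ) * be j : ℚ) : ℚ_[3]) := by
  have h1 : (cc j).eval (m : ℤ_[3]) = Bz j * (((2 + 3 * m).descFactorial (2 * j) : ℕ) : ℤ_[3]) := by
    unfold cc
    rw [eval_mul, eval_C, eval_prod, ← desc]
    congr 1
    apply prod_congr rfl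
    intro i _
    simp
    ring
  rw [h1, PadicInt.coe_mul, Bz_coe, PadicInt.coe_natCast, Nat.descFactorial_eq_factorial_mul_choose]
  have h2 : (((2 * j).factorial : ℕ) : ℚ_[3]) ≠ 0 := by
    exact_mod_cast Nat.factorial_ne_zero _
  unfold bq
  push_cast
  field_simp

/-- reduction modulo 81 of `β_j/(2j)!` -/
lemma bz_mod (j : ℕ) (D : ℕ) (N r s : ℤ) (hD : Nat.Coprime 3 D) (h : bq j = N / D) (h2 : N - D * r = 81 * s) :
    ∃ t : ℤ_[3], Bz j = r + 81 * t := by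
  have hDu : IsUnit (D : ℤ_[3]) := by
    rw [PadicInt.isUnit_iff, PadicInt.norm_natCast_eq_one_iff]
    exact hD
  obtain ⟨u, hu⟩ := hDu.exists_right_inv
  have hD0 : (D : ℚ) ≠ 0 := by
    intro h3
    have : D = 0 := by exact_mod_cast h3
    subst this
    simp at hD
  have h3 : (D : ℤ_[3]) * Bz j = N := by
    apply Subtype.ext
    rw [PadicInt.coe_mul, Bz_coe, PadicInt.coe_natCast, PadicInt.coe_intCast, h]
    push_cast
    have : (D : ℚ_[3]) ≠ 0 := by exact_mod_cast hD0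
    field_simp
  refine ⟨u * s, ?_⟩
  have h4 : (N : ℤ_[3]) - D * r = 81 * s := by exact_mod_cast congrArg (Int.cast : ℤ → ℤ_[3]) h2
  have h5 : Bz j - r = u * ((D : ℤ_[3]) * Bz j - D * r) := by
    have : u * ((D : ℤ_[3]) * Bz j - D * r) = (D * u) * (Bz j - r) := by ring
    rw [this, hu, one_mul]
  rw [h3, h4] at h5
  have : Bz j = (Bz j - r) + r := by ring
  rw [this, h5]
  ring

lemma cc_mod (j : ℕ) (r : ℤ) (f q : ℤ_[3][X]) (h : ∃ t : ℤ_[3], Bz j = r + 81 * t)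
    (hq : (r : ℤ_[3][X]) * ∏ i ∈ range (2 * j), (2 - (i : ℤ_[3][X]) + 3 * X) = f + 81 * q) :
    ∃ e : ℤ_[3][X], cc j = f + 81 * e := by
  obtain ⟨t, ht⟩ := h
  refine ⟨q + C t * ∏ i ∈ range (2 * j), (2 - (i : ℤ_[3][X]) + 3 * X), ?_⟩
  unfold cc
  have h1 : (C (Bz j) : ℤ_[3][X]) = (r : ℤ_[3][X]) + 81 * C t := by
    have h81 : (C (81 : ℤ_[3]) : ℤ_[3][X]) = 81 := map_ofNat C 81
    rw [ht, C_add, C_mul, h81]
    simp
  rw [h1, add_mul, hq]
  ring

lemma bern6 : _root_.bernoulli 6 = 1 / 42 := by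
  have c2 : Nat.choose 6 2 = 15 := by decide
  have c4 : Nat.choose 6 4 = 15 := by decide
  have h5 : bernoulli' 5 = 0 := bernoulli'_eq_zero_of_odd (by decide) (by norm_num)
  rw [bernoulli_eq_bernoulli'_of_ne_one (by norm_num), bernoulli'_def]
  norm_num [sum_range_succ, c2, c4, h5]

lemma bern6' : bernoulli' 6 = 1 / 42 := by
  rw [← bernoulli_eq_bernoulli'_of_ne_one (by norm_num), bern6]

lemma bern8' : bernoulli' 8 = -1 / 30 := by
  have c2 : Nat.choose 8 2 = 28 := by decide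
  have c4 : Nat.choose 8 4 = 70 := by decide
  have c6 : Nat.choose 8 6 = 28 := by decide
  have h5 : bernoulli' 5 = 0 := bernoulli'_eq_zero_of_odd (by decide) (by norm_num)
  have h7 : bernoulli' 7 = 0 := bernoulli'_eq_zero_of_odd (by decide) (by norm_num)
  rw [bernoulli'_def]
  norm_num [sum_range_succ, c2, c4, c6, h5, h7, bern6']

lemma bern10' : bernoulli' 10 = 5 / 66 := by
  have c2 : Nat.choose 10 2 = 45 := by decide
  have c4 : Nat.choose 10 4 = 210 := by decide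
  have c6 : Nat.choose 10 6 = 210 := by decide
  have c8 : Nat.choose 10 8 = 45 := by decide
  have h5 : bernoulli' 5 = 0 := bernoulli'_eq_zero_of_odd (by decide) (by norm_num)
  have h7 : bernoulli' 7 = 0 := bernoulli'_eq_zero_of_odd (by decide) (by norm_num)
  have h9 : bernoulli' 9 = 0 := bernoulli'_eq_zero_of_odd (by decide) (by norm_num)
  rw [bernoulli'_def]
  norm_num [sum_range_succ, c2, c4, c6, c8, h5, h7, h9, bern6', bern8']

lemma bq1 : bq 1 = (-1 : ℤ) / (2 : ℕ) := by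
  unfold bq be
  norm_num [Nat.factorial]

lemma bq2 : bq 2 = (7 : ℤ) / (40 : ℕ) := by
  unfold bq be
  rw [show 2 * 2 = 4 by norm_num, bernoulli_eq_bernoulli'_of_ne_one (by norm_num), bernoulli'_four]
  norm_num [Nat.factorial]

lemma bq3 : bq 3 = (-31 : ℤ) / (560 : ℕ) := by
  unfold bq be
  rw [show 2 * 3 = 6 by norm_num, bern6]
  norm_num [Nat.factorial]

lemma bq4 : bq 4 = (381 : ℤ) / (22400 : ℕ) := by
  unfold bq be
  rw [show 2 * 4 = 8 by norm_num, bernoulli_eq_bernoulli'_of_ne_one (by norm_num), bern8']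
  norm_num [Nat.factorial]

lemma bq5 : bq 5 = (-73 : ℤ) / (14080 : ℕ) := by
  unfold bq be
  rw [show 2 * 5 = 10 by norm_num, bernoulli_eq_bernoulli'_of_ne_one (by norm_num), bern10']
  norm_num [Nat.factorial]

lemma c1 : ∃ e : ℤ_[3][X], cc 1 = (-1 + 36 * X + 36 * X ^ 2) + 81 * e :=
  cc_mod 1 40 _ (1 + 4 * X + 4 * X ^ 2) (bz_mod 1 2 (-1) 40 (-1) (by norm_num) bq1 (by norm_num))
    (by norm_num [prod_range_succ]; ring)

lemma c2 : ∃ e : ℤ_[3][X], cc 2 = (3 * X - 36 * X ^ 2 - 27 * X ^ 3) + 81 * e :=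
  cc_mod 2 67 _ (-5 * X - 7 * X ^ 2 + 45 * X ^ 3 + 67 * X ^ 4)
    (bz_mod 2 40 7 67 (-33) (by norm_num) bq2 (by norm_num))
    (by norm_num [prod_range_succ]; ring)

lemma c3 : ∃ e : ℤ_[3][X], cc 3 = (-9 * X + 9 * X ^ 2) + 81 * e :=
  cc_mod 3 16 _ (-7 * X + 7 * X ^ 2 + 80 * X ^ 3 - 80 * X ^ 4 - 144 * X ^ 5 + 144 * X ^ 6)
    (bz_mod 3 560 (-31) 16 (-111) (by norm_num) bq3 (by norm_num))
    (by norm_num [prod_range_succ]; ring)

lemma c4 : ∃ e : ℤ_[3][X], cc 4 = (-27 * X + 27 * X ^ 2) + 81 * e :=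
  cc_mod 4 51 _ (-453 * X + 1065 * X ^ 2 + 4284 * X ^ 3 - 11781 * X ^ 4 + 19278 * X ^ 6 - 16524 * X ^ 7 +
      4131 * X ^ 8)
    (bz_mod 4 22400 381 51 (-14099) (by norm_num) bq4 (by norm_num))
    (by norm_num [prod_range_succ]; ring)

lemma c5 : ∃ e : ℤ_[3][X], cc 5 = (27 * X - 27 * X ^ 3) + 81 * e :=
  cc_mod 5 11 _ (-4107 * X + 13464 * X ^ 2 + 28967 * X ^ 3 - 140690 * X ^ 4 + 107415 * X ^ 5 +
      151767 * X ^ 6 - 311850 * X ^ 7 + 213840 * X ^ 8 - 66825 * X ^ 9 + 8019 * X ^ 10)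
    (bz_mod 5 14080 (-73) 11 (-1913) (by norm_num) bq5 (by norm_num))
    (by norm_num [prod_range_succ]; ring)

theorem s_TDA : S_TDA := by
  refine ⟨cc, cc_div, ?_, c1, c2, c3, c4, c5, ?_⟩
  · unfold cc
    have h : Bz 0 = 1 := by
      apply Subtype.ext
      rw [Bz_coe, PadicInt.coe_one]
      simp [bq, be]
      norm_num
    rw [h]
    simp
  · intro m J Y hY hR
    have hYu : IsUnit (Y : ℤ_[3]) := by
      rw [PadicInt.isUnit_iff]
      by_contra h
      have h1 : ‖(Y : ℤ_[3])‖ < 1 := lt_of_le_of_ne (PadicInt.norm_le_one _) h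
      exact hY (PadicInt.norm_int_lt_one_iff_dvd Y |>.1 h1)
    obtain ⟨v, hv⟩ := hYu.exists_right_inv
    have hvq : (Y : ℚ_[3]) * (v : ℚ_[3]) = 1 := by
      have := congrArg (fun a : ℤ_[3] => (a : ℚ_[3])) hv
      simpa using this
    have hY0 : (Y : ℚ_[3]) ≠ 0 := left_ne_zero_of_mul_eq_one hvq
    set n := 2 + 3 * m with hn
    have hsum : ∀ K : ℕ, n / 2 + 1 ≤ K → ∑ j ∈ range K, (cc j).eval (m : ℤ_[3]) * v ^ j = 0 := by
      intro K hK
      apply Subtype.ext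
      have h1 : ∑ j ∈ range K, (((((n.choose (2 * j) : ℕ) : ℚ) * be j : ℚ) : ℚ_[3]) * (v : ℚ_[3]) ^ j) = 0 := by
        have h2 : ∑ j ∈ range (n / 2 + 1),
            (((((n.choose (2 * j) : ℕ) : ℚ) * be j : ℚ) : ℚ_[3]) * (v : ℚ_[3]) ^ j) = 0 := by
          have h3 := congrArg (fun a : ℚ => (a : ℚ_[3])) hR
          simp only [Rat.cast_sum, Rat.cast_zero] at h3
          rw [← h3]
          apply sum_congr rfl
          intro j _
          have h4 : (v : ℚ_[3]) = (Y : ℚ_[3])⁻¹ := eq_inv_of_mul_eq_one_right hvq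
          rw [h4]
          push_cast
          rw [inv_pow, div_eq_mul_inv]
        rw [← h2]
        symm
        apply sum_subset
        · intro j hj
          rw [mem_range] at hj ⊢
          omega
        · intro j _ hj
          rw [mem_range] at hj
          rw [Nat.choose_eq_zero_of_lt (by omega : n < 2 * j)]
          simp
      have h5 : ((∑ j ∈ range K, (cc j).eval (m : ℤ_[3]) * v ^ j : ℤ_[3]) : ℚ_[3]) =
          ∑ j ∈ range K, (((((n.choose (2 * j) : ℕ) : ℚ) * be j : ℚ) : ℚ_[3]) * (v : ℚ_[3]) ^ j) := by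
        rw [PadicInt.coe_sum]
        apply sum_congr rfl
        intro j _
        rw [PadicInt.coe_mul, cc_eval, PadicInt.coe_pow]
      rw [PadicInt.coe_zero]
      exact h5.trans h1
    have h6 := hsum (J + 1 + (n / 2 + 1)) (by omega)
    rw [sum_range_add] at h6
    have h7 : ∑ j ∈ range (J + 1), (cc j).eval (m : ℤ_[3]) * (Y : ℤ_[3]) ^ (J - j) =
        (Y : ℤ_[3]) ^ J * ∑ j ∈ range (J + 1), (cc j).eval (m : ℤ_[3]) * v ^ j := by
      rw [mul_sum]
      apply sum_congr rfl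
      intro j hj
      rw [mem_range] at hj
      have h8 : (Y : ℤ_[3]) ^ J = (Y : ℤ_[3]) ^ (J - j) * (Y : ℤ_[3]) ^ j := by
        rw [← pow_add]
        congr 1
        omega
      have h9 : (Y : ℤ_[3]) ^ j * v ^ j = 1 := by rw [← mul_pow, hv, one_pow]
      calc (cc j).eval (m : ℤ_[3]) * (Y : ℤ_[3]) ^ (J - j)
          = (cc j).eval (m : ℤ_[3]) * (Y : ℤ_[3]) ^ (J - j) * ((Y : ℤ_[3]) ^ j * v ^ j) := by rw [h9, mul_one]
        _ = (Y : ℤ_[3]) ^ J * ((cc j).eval (m : ℤ_[3]) * v ^ j) := by rw [h8]; ring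
    have h10 : ∑ j ∈ range (J + 1), (cc j).eval (m : ℤ_[3]) * v ^ j =
        - ∑ i ∈ range (n / 2 + 1), (cc (J + 1 + i)).eval (m : ℤ_[3]) * v ^ (J + 1 + i) :=
      eq_neg_of_add_eq_zero_left h6
    rw [h7, h10]
    apply Dvd.dvd.mul_left
    rw [dvd_neg]
    apply dvd_sum
    intro i _
    obtain ⟨d, hd⟩ := cc_div (J + 1 + i)
    rw [hd]
    apply Dvd.dvd.mul_right
    rw [eval_mul, eval_pow]
    apply Dvd.dvd.mul_right
    have h11 : (3 : ℤ_[3][X]).eval (m : ℤ_[3]) = 3 := by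
      have : (3 : ℤ_[3][X]) = C (3 : ℤ_[3]) := (map_ofNat C 3).symm
      rw [this, eval_C]
    rw [h11]
    exact pow_dvd_pow _ (by omega)

end Pool.Agent.L7h30.BP
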